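import Pool.Agent.Helper32.RA.Final

/-! The theorem on algebra isomorphisms for `LPA`. -/

set_option autoImplicit false

universe k a b a' b'

namespace Pool.Agent.Helper32.RA

open Pool.Agent.Helper32.LV

variable {V : Type a} {E : Type b} {K : Type k} [Field K] {G : Gr V E}
  {V' : Type a'} {E' : Type b'} {G' : Gr V' E'}

theorem main_LPA (g : LPA K G ≃+* LPA K G') : ∃ f : LPA K G ≃+* LPA K G',
    (∀ (c : K) (x : LPA K G), f (c • x) = c • f x) ∧
    ∀ z, f (LPA.gen K G z) = g (LPA.gen K G z) := by
  obtain ⟨f, h1, h2, h3, h4⟩ := mainL (K := K) (G := G) (G' := G') g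
  refine ⟨f, h1, ?_⟩
  intro z
  cases z with
  | vert v => exact h2 v
  | edge e => exact h3 e
  | ghost e => exact h4 e

theorem LPA_ind {p : LPA K G → Prop} (h0 : p 0) (ha : ∀ x y, p x → p y → p (x + y))
    (hm : ∀ x y, p x → p y → p (x * y)) (hc : ∀ (c : K) x, p x → p (c • x))
    (hg : ∀ z, p (LPA.gen K G z)) (x : LPA K G) : p x := by
  obtain ⟨x, hx⟩ := x
  refine L_ind (K := K) (G := G) (p := fun x => ∀ hx : x ∈ LQ K G, p ⟨x, hx⟩)
    ?_ ?_ ?_ ?_ ?_ ?_ ?_ (show (show U K G from x) ∈ L K G from hx) hx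
  · intro v _
    exact hg (.vert v)
  · intro v _
    exact hg (.edge v)
  · intro v _
    exact hg (.ghost v)
  · intro _
    exact h0
  · intro x hx y hy h1 h2 _
    exact ha (⟨x, hx⟩ : LPA K G) ⟨y, hy⟩ (h1 hx) (h2 hy)
  · intro x hx y hy h1 h2 _
    exact hm (⟨x, hx⟩ : LPA K G) ⟨y, hy⟩ (h1 hx) (h2 hy)
  · intro c x hx h1 _
    exact hc c (⟨x, hx⟩ : LPA K G) (h1 hx)

theorem isStar_star [StarRing K] : IsStar K G (fun x : LPA K G => star x) :=
  Classical.choose_spec (exists_star K G)

/-- a ring isomorphism which preserves the involutions gives an isomorphism of *-algebras -/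
theorem main_LPA_star [StarRing K] (g : LPA K G ≃+* LPA K G')
    (hg : ∀ x, g (star x) = star (g x)) (f : LPA K G ≃+* LPA K G')
    (hf : ∀ (c : K) (x : LPA K G), f (c • x) = c • f x)
    (hfg : ∀ z, f (LPA.gen K G z) = g (LPA.gen K G z)) (x : LPA K G) :
    f (star x) = star (f x) := by
  have s := isStar_star (K := K) (G := G)
  have s' := isStar_star (K := K) (G := G')
  refine LPA_ind (p := fun x => f (star x) = star (f x)) ?_ ?_ ?_ ?_ ?_ x
  · have h1 : star (0 : LPA K G) = 0 := s.zero
    have h2 : star (0 : LPA K G') = 0 := s'.zero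
    rw [h1, map_zero, h2]
  · intro x y hx hy
    have h1 : star (x + y) = star x + star y := s.add x y
    have h2 : star (f x + f y) = star (f x) + star (f y) := s'.add _ _
    rw [h1, map_add, map_add, hx, hy, h2]
  · intro x y hx hy
    have h1 : star (x * y) = star y * star x := s.mul x y
    have h2 : star (f x * f y) = star (f y) * star (f x) := s'.mul _ _
    rw [h1, map_mul, map_mul, hx, hy, h2]
  · intro c x hx
    have h1 : star (c • x) = star c • star x := s.smul c x
    have h2 : star (c • f x) = star c • star (f x) := s'.smul c _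
    rw [h1, hf, hf, hx, h2]
  · intro z
    have h1 : star (LPA.gen K G z) = LPA.gen K G z.sw := s.gen z
    rw [hfg z, ← hg, h1, hfg]

/-- `f` is linear over `K` -/
def IsLin (f : LPA K G ≃+* LPA K G') : Prop := ∀ (c : K) (x : LPA K G), f (c • x) = c • f x

/-- `f` and `g` agree on the vertices, the edges and the ghost edges -/
def SameGen (f g : LPA K G ≃+* LPA K G') : Prop :=
  ∀ z : Gen V E, f (LPA.gen K G z) = g (LPA.gen K G z)

/-- `f` preserves the involutions -/
def PresStar [StarRing K] (f : LPA K G ≃+* LPA K G') : Prop :=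
  ∀ x : LPA K G, f (star x) = star (f x)

end Pool.Agent.Helper32.RA
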