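import Pool.Agent.Helper32.RA.Pa

/-! Leavitt path algebras: the centroid.

PIECE RA-5. `Cen.smul`: for `x` in `L` take a local unit `u ∈ L`, `x * u = x` (`exists_unit`); then
`T (c • x) = T (x * (c • u)) = T x * (c • u) = c • T (x * u)`. `cen_star` uses that `star` is
anti-multiplicative on `L` (`star_mul`). -/

set_option autoImplicit false

universe k a b a' b'

namespace Pool.Agent.Helper32.RA

open Pool.Agent.Helper32.LV

variable {V : Type a} {E : Type b} {K : Type k} [Field K] {G : Gr V E}
  {V' : Type a'} {E' : Type b'} {G' : Gr V' E'}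

/-- local units -/
theorem exists_unitL (x : L K G) : ∃ u : L K G, u * x = x ∧ x * u = x := by
  obtain ⟨F, h1, h2⟩ := exists_unit x.2
  exact ⟨⟨∑ v ∈ F, vx K G v, sum_mem fun v _ => vx_mem v⟩, Subtype.ext h1, Subtype.ext h2⟩

theorem Cen.smul {T : L K G → L K G} (hT : Cen T) (c : K) (x : L K G) : T (c • x) = c • T x := by
  obtain ⟨u, -, h2⟩ := exists_unitL x
  have h3 : c • x = x * (c • u) := by rw [mul_smul_comm, h2]
  rw [h3, hT.mul1, mul_smul_comm, ← hT.mul1, h2]

theorem Cen.zero {T : L K G → L K G} (hT : Cen T) : T 0 = 0 := by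
  have h := hT.mul1 0 0
  rwa [mul_zero, mul_zero] at h

/-- the centroid element as a linear map -/
noncomputable def Cen.toEnd {T : L K G → L K G} (hT : Cen T) : Module.End K (L K G) where
  toFun := T
  map_add' := hT.add
  map_smul' c x := hT.smul c x

theorem Cen.toEnd_apply {T : L K G → L K G} (hT : Cen T) (x : L K G) : hT.toEnd x = T x := rfl

theorem cen_id : Cen (fun x : L K G => x) where
  add _ _ := rfl
  mul1 _ _ := rfl
  mul2 _ _ := rfl

theorem cen_smul (c : K) : Cen (fun x : L K G => c • x) where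
  add x y := smul_add c x y
  mul1 x y := (smul_mul_assoc c x y).symm
  mul2 x y := (mul_smul_comm c x y).symm

theorem Cen.add' {T S : L K G → L K G} (hT : Cen T) (hS : Cen S) :
    Cen (fun x => T x + S x) where
  add x y := by rw [hT.add, hS.add]; abel
  mul1 x y := by rw [hT.mul1, hS.mul1, add_mul]
  mul2 x y := by rw [hT.mul2, hS.mul2, mul_add]

theorem Cen.sub {T S : L K G → L K G} (hT : Cen T) (hS : Cen S) :
    Cen (fun x => T x - S x) where
  add x y := by rw [hT.add, hS.add]; abel
  mul1 x y := by rw [hT.mul1, hS.mul1, sub_mul]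
  mul2 x y := by rw [hT.mul2, hS.mul2, mul_sub]

theorem Cen.comp {T S : L K G → L K G} (hT : Cen T) (hS : Cen S) :
    Cen (fun x => T (S x)) where
  add x y := by rw [hS.add, hT.add]
  mul1 x y := by rw [hS.mul1, hT.mul1]
  mul2 x y := by rw [hS.mul2, hT.mul2]

theorem cn_pow {T : L K G → L K G} (hT : Cen T) (n : ℕ) :
    Cen (fun x => (hT.toEnd ^ n) x) := by
  induction n with
  | zero => simpa using (cen_id (K := K) (G := G))
  | succ n ih =>
    have h : (fun x => (hT.toEnd ^ (n + 1)) x) = fun x => (hT.toEnd ^ n) (T x) := by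
      funext x
      rw [pow_succ, Module.End.mul_apply, Cen.toEnd_apply]
    rw [h]
    exact ih.comp hT

/-- polynomials in a centroid element -/
theorem Cen.aeval {T : L K G → L K G} (hT : Cen T) (p : Polynomial K) :
    Cen (fun x => Polynomial.aeval hT.toEnd p x) := by
  induction p using Polynomial.induction_on' with
  | add p q hp hq =>
    have h := hp.add' hq
    simpa only [map_add, LinearMap.add_apply] using h
  | monomial n a =>
    have h := (cen_smul (G := G) a).comp (cn_pow hT n)
    simpa only [Polynomial.aeval_monomial, Module.End.mul_apply,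
      Module.algebraMap_end_apply] using h
/-- transport by a ring isomorphism -/
theorem Cen.conj {T : L K G → L K G} (hT : Cen T) (φ : L K G ≃+* L K G') :
    Cen (fun y : L K G' => φ (T (φ.symm y))) where
  add x y := by rw [map_add, hT.add, map_add]
  mul1 x y := by rw [map_mul, hT.mul1, map_mul, RingEquiv.apply_symm_apply]
  mul2 x y := by rw [map_mul, hT.mul2, map_mul, RingEquiv.apply_symm_apply]

theorem cn_star_add [StarRing K] (x y : L K G) : star (x + y) = star x + star y :=
  Subtype.ext (star_add x.1 y.1)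

theorem cn_star_mul [StarRing K] (x y : L K G) : star (x * y) = star y * star x :=
  Subtype.ext (star_mul x.1 y.1)

theorem cn_star_star [StarRing K] (x : L K G) : star (star x) = x :=
  Subtype.ext (star_star x.1)

theorem Cen.star [StarRing K] {T : L K G → L K G} (hT : Cen T) :
    Cen (fun x => star (T (star x))) where
  add x y := by rw [cn_star_add, hT.add, cn_star_add]
  mul1 x y := by rw [cn_star_mul, hT.mul2, cn_star_mul, cn_star_star]
  mul2 x y := by rw [cn_star_mul, hT.mul1, cn_star_mul, cn_star_star]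

/-- `T x` for `x` in the corner of `v` is in the corner of `v` -/
theorem Cen.cor {T : L K G → L K G} (hT : Cen T) (v : V) : Cor v (T (vL K G v) : U K G) := by
  have hv : vL K G v * vL K G v = vL K G v := Subtype.ext (vx_vx v)
  refine ⟨(T (vL K G v)).2, ?_, ?_⟩
  · have h := hT.mul2 (vL K G v) (vL K G v)
    rw [hv] at h
    exact (congrArg (fun z : L K G => (z : U K G)) h).symm
  · have h := hT.mul1 (vL K G v) (vL K G v)
    rw [hv] at h
    exact (congrArg (fun z : L K G => (z : U K G)) h).symm

/-- compression by paths: `l* T(w) m = T(l* m)` -/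
theorem Cen.qp {T : L K G → L K G} (hT : Cen T) {v : V} {l m : List E} (hl : G.IsPath v l)
    (hm : G.IsPath v m) (z : L K G) (hz : (z : U K G) = qq K G v l * pp K G v m) :
    qq K G v l * (T (vL K G v) : U K G) * pp K G v m = (T z : U K G) := by
  have h1 : z = (⟨qq K G v l, qq_mem hl⟩ : L K G) * (vL K G v * ⟨pp K G v m, pp_mem hm⟩) := by
    apply Subtype.ext
    rw [hz]
    change _ = qq K G v l * (vx K G v * pp K G v m)
    rw [vx_pp]
  rw [h1, hT.mul2, hT.mul1]
  exact mul_assoc _ _ _

theorem Cen.qp_self {T : L K G → L K G} (hT : Cen T) {v : V} {l : List E} (hl : G.IsPath v l) :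
    qq K G v l * (T (vL K G v) : U K G) * pp K G v l = (T (vL K G (G.tgt v l)) : U K G) :=
  hT.qp hl hl _ (qq_mul_pp hl).symm

theorem Cen.qp_ne {T : L K G → L K G} (hT : Cen T) {v : V} {l m : List E} (hl : G.IsPath v l)
    (hm : G.IsPath v m) (h0 : qq K G v l * pp K G v m = 0) :
    qq K G v l * (T (vL K G v) : U K G) * pp K G v m = 0 := by
  rw [hT.qp hl hm 0 h0.symm, hT.zero]
  rfl

/-- `T(v)` commutes with the corner of `v` -/
theorem Cen.comm {T : L K G → L K G} (hT : Cen T) {v : V} {x : U K G} (hx : Cor v x) :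
    (T (vL K G v) : U K G) * x = x * (T (vL K G v) : U K G) := by
  obtain ⟨hL, h1, h2⟩ := hx
  have h3 : vL K G v * (⟨x, hL⟩ : L K G) = ⟨x, hL⟩ := Subtype.ext h1
  have h4 : (⟨x, hL⟩ : L K G) * vL K G v = ⟨x, hL⟩ := Subtype.ext h2
  have h5 : T (vL K G v) * (⟨x, hL⟩ : L K G) = (⟨x, hL⟩ : L K G) * T (vL K G v) := by
    rw [← hT.mul1, ← hT.mul2, h3, h4]
  exact congrArg (fun z : L K G => (z : U K G)) h5

end Pool.Agent.Helper32.RA
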