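import Pool.Agent.Helper32.LV.Star

/-! Leavitt path algebras of arbitrary graphs: elements of paths, the grading by the integers,
the centroid. Definitions. -/

set_option autoImplicit false

universe k a b a' b'

namespace Pool.Agent.Helper32.RA

open Pool.Agent.Helper32.LV

variable {V : Type a} {E : Type b} (K : Type k) [Field K] (G : Gr V E)

/-- the element of the path `l` starting at `v` -/
noncomputable def pp (v : V) (l : List E) : U K G := vx K G v * (l.map (ed K G)).prod

/-- the adjoint of the element of the path `l` starting at `v` -/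
noncomputable def qq (v : V) (l : List E) : U K G := (l.reverse.map (gh K G)).prod * vx K G v

variable {K G}

theorem isRep_gr : IsRep K G (B := AddMonoidAlgebra (U K G) ℤ)
    (fun v => AddMonoidAlgebra.single 0 (vx K G v))
    (fun e => AddMonoidAlgebra.single 1 (ed K G e))
    (fun e => AddMonoidAlgebra.single (-1) (gh K G e)) where
  vv v := by rw [AddMonoidAlgebra.single_mul_single, vx_vx, add_zero]
  vw v w h := by rw [AddMonoidAlgebra.single_mul_single, vx_vx_of_ne h, AddMonoidAlgebra.single_zero]
  se e := by rw [AddMonoidAlgebra.single_mul_single, vx_ed, zero_add]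
  er e := by rw [AddMonoidAlgebra.single_mul_single, ed_vx, add_zero]
  rg e := by rw [AddMonoidAlgebra.single_mul_single, vx_gh, zero_add]
  gs e := by rw [AddMonoidAlgebra.single_mul_single, gh_vx, add_zero]
  ge e := by rw [AddMonoidAlgebra.single_mul_single, gh_ed, neg_add_cancel]
  gf e f h := by rw [AddMonoidAlgebra.single_mul_single, gh_ed_of_ne h, AddMonoidAlgebra.single_zero]
  ck v h h0 := by
    rw [vx_eq_sum v h h0]
    have h1 : ∀ e ∈ h.toFinset, AddMonoidAlgebra.single 1 (ed K G e) *
        AddMonoidAlgebra.single (-1 : ℤ) (gh K G e) =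
        AddMonoidAlgebra.single 0 (ed K G e * gh K G e) := fun e _ => by
      rw [AddMonoidAlgebra.single_mul_single, add_neg_cancel]
    rw [Finset.sum_congr rfl h1]
    exact map_sum (AddMonoidAlgebra.singleAddHom (0 : ℤ)) _ _

/-- the grading: `v ↦ v`, `e ↦ e T`, `e* ↦ e* T⁻¹` -/
noncomputable def gr : U K G →ₐ[K] AddMonoidAlgebra (U K G) ℤ := lift isRep_gr

/-- `x` is homogeneous of degree `n` -/
def Hm (n : ℤ) (x : U K G) : Prop := gr x = AddMonoidAlgebra.single n x

/-- the homogeneous component of degree `n` -/
noncomputable def cp (n : ℤ) (x : U K G) : U K G := (gr x).coeff n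

/-- `v` emits no edge -/
def Snk (G : Gr V E) (v : V) : Prop := ∀ e, G.s e ≠ v

/-- the paths from `v` which have length `N`, or are shorter and end at a sink -/
def NP (G : Gr V E) (N : ℕ) (v : V) : Set (List E) :=
  {l | G.IsPath v l ∧ (l.length = N ∨ (l.length < N ∧ Snk G (G.tgt v l)))}

/-- there is a path from `w` to `u` -/
def Rch (G : Gr V E) (w u : V) : Prop := ∃ l, G.IsPath w l ∧ G.tgt w l = u

/-- there is a non-empty closed path without exits at `v` -/
def NE (G : Gr V E) (v : V) : Prop :=
  ∃ l, l ≠ [] ∧ G.IsPath v l ∧ G.tgt v l = v ∧ ∀ e ∈ l, ∀ f, G.s f = G.s e → f = e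

/-- `x` is in the corner of `v` -/
def Cor (v : V) (x : U K G) : Prop := x ∈ L K G ∧ vx K G v * x = x ∧ x * vx K G v = x

variable (K G)

/-- the vertex as an element of `L` -/
noncomputable def vL (v : V) : L K G := ⟨vx K G v, vx_mem v⟩
/-- the edge as an element of `L` -/
noncomputable def eL (e : E) : L K G := ⟨ed K G e, ed_mem e⟩
/-- the ghost edge as an element of `L` -/
noncomputable def gL (e : E) : L K G := ⟨gh K G e, gh_mem e⟩

variable {K G}

/-- `T` is in the centroid of `L` -/
structure Cen (T : L K G → L K G) : Prop where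
  add : ∀ x y, T (x + y) = T x + T y
  mul1 : ∀ x y, T (x * y) = T x * y
  mul2 : ∀ x y, T (x * y) = x * T y

/-- the centroid element `T` acts as a scalar at the vertices on closed paths without exits
reachable from `w` -/
def ScA (T : L K G → L K G) (w : V) : Prop :=
  ∀ u, Rch G w u → NE G u → ∃ c : K, T (vL K G u) = c • vL K G u

end Pool.Agent.Helper32.RA
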