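import Pool.Agent.Helper32.RA.Pa

/-! Leavitt path algebras: the elements are separated by long paths.

PIECE RA-3. `f1`: if `{e | G.s e = v}` is finite, `x = vx v * x = ∑ e e* x = 0`. If it is infinite:
write `x = ∑ c • (pp v l * qq w m)` as a finite sum (use `L_ind2`, multiplied by `vx v`; it is
convenient to prove first that `x = y + z` where `y` is a combination of `qq w m` with
`tgt w m = v` and `z = ∑ f ∈ F, ed f * gh f * z` for a finite set `F` of edges starting at `v`). Choose
`e` starting at `v` outside `F`; then `0 = e* x = e* y` is a combination of the adjoints of the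
different paths `m ++ [e]`, so all coefficients of `y` vanish by `qq_li`, `y = 0`, and
`x = z = ∑ f ∈ F, f (f* x) = 0`. `f1_iter` by induction on `N`; `sep` by `f1_iter` and the same
for `star` (use the trivial involution `starRingOfComm` of `K`; `star_pp`, `star_qq`). -/

set_option autoImplicit false

universe k a b

namespace Pool.Agent.Helper32.RA

open Pool.Agent.Helper32.LV

variable {V : Type a} {E : Type b} {K : Type k} [Field K] {G : Gr V E}

/-- `z` is a combination of elements which start with the edges in `F` -/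
def np_Z (G : Gr V E) (F : Finset E) (z : U K G) : Prop :=
  z = ∑ f ∈ F, ed K G f * (gh K G f * z)

theorem np_Z_out {F : Finset E} {z : U K G} (h : np_Z G F z) {e : E} (he : e ∉ F) :
    gh K G e * z = 0 := by
  rw [h, Finset.mul_sum]
  refine Finset.sum_eq_zero fun f hf => ?_
  have hne : e ≠ f := by
    rintro rfl
    exact he hf
  rw [← mul_assoc, gh_ed_of_ne hne, zero_mul]

theorem np_Z_mono {F F' : Finset E} {z : U K G} (h : np_Z G F z) (hF : F ⊆ F') :
    np_Z G F' z := by
  unfold np_Z
  rw [← Finset.sum_subset hF (f := fun f => ed K G f * (gh K G f * z))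
    (fun e _ he => by rw [np_Z_out h he, mul_zero])]
  exact h

theorem np_Z_add [DecidableEq E] {F F' : Finset E} {z z' : U K G} (h : np_Z G F z)
    (h' : np_Z G F' z') : np_Z G (F ∪ F') (z + z') := by
  have h1 := np_Z_mono h (Finset.subset_union_left (s₂ := F'))
  have h2 := np_Z_mono h' (Finset.subset_union_right (s₁ := F))
  unfold np_Z at h1 h2 ⊢
  conv_lhs => rw [h1, h2]
  rw [← Finset.sum_add_distrib]
  refine Finset.sum_congr rfl fun f _ => ?_
  rw [mul_add, mul_add]

/-- the adjoints of the paths which end at `v` -/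
def np_Q (G : Gr V E) (v : V) : Set (V × List E) :=
  {p | G.IsPath p.1 p.2 ∧ G.tgt p.1 p.2 = v}

theorem np_dec (v : V) {x : U K G} (hx : x ∈ L K G) :
    ∃ y ∈ Submodule.span K ((fun p : V × List E => qq K G p.1 p.2) '' np_Q G v),
      ∃ (F : Finset E) (z : U K G), np_Z G F z ∧ vx K G v * x = y + z := by
  classical
  refine L_ind2 (p := fun x => ∃ y ∈ Submodule.span K
      ((fun p : V × List E => qq K G p.1 p.2) '' np_Q G v),
      ∃ (F : Finset E) (z : U K G), np_Z G F z ∧ vx K G v * x = y + z) ?_ ?_ ?_ hx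
  · refine ⟨0, Submodule.zero_mem _, ∅, 0, ?_, ?_⟩
    · unfold np_Z
      rw [Finset.sum_empty]
    · rw [mul_zero, add_zero]
  · rintro x _ x' _ ⟨y, hy, F, z, hz, h⟩ ⟨y', hy', F', z', hz', h'⟩
    refine ⟨y + y', Submodule.add_mem _ hy hy', F ∪ F', z + z', np_Z_add hz hz', ?_⟩
    rw [mul_add, h, h']
    abel
  · intro c v' l w m hl hm hlm
    by_cases hv : v = v'
    · subst hv
      cases l with
      | nil =>
        have hlm' : G.tgt w m = v := hlm.symm
        refine ⟨c • qq K G w m, Submodule.smul_mem _ _ (Submodule.subset_span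
          ⟨(w, m), ⟨hm, hlm'⟩, rfl⟩), ∅, 0, ?_, ?_⟩
        · unfold np_Z
          rw [Finset.sum_empty]
        · have h3 := vx_qq (K := K) hm
          rw [hlm'] at h3
          rw [pp_nil, h3, mul_smul_comm, h3, add_zero]
      | cons e l =>
        refine ⟨0, Submodule.zero_mem _, {e}, vx K G v * c • (pp K G v (e :: l) * qq K G w m),
          ?_, (zero_add _).symm⟩
        unfold np_Z
        rw [Finset.sum_singleton, mul_smul_comm, ← mul_assoc, vx_pp, pp_cons hl, mul_assoc,
          mul_smul_comm, mul_smul_comm, ← mul_assoc (gh K G e), gh_ed, ← mul_assoc (ed K G e) (vx K G (G.r e)),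
          ed_vx]
    · refine ⟨0, Submodule.zero_mem _, ∅, 0, ?_, ?_⟩
      · unfold np_Z
        rw [Finset.sum_empty]
      · rw [mul_smul_comm, ← mul_assoc, ← vx_pp, ← mul_assoc (vx K G v), vx_vx_of_ne hv, zero_mul,
          zero_mul, smul_zero, add_zero]

theorem np_y {v : V} {e : E} (he : G.s e = v) {y : U K G}
    (hy : y ∈ Submodule.span K ((fun p : V × List E => qq K G p.1 p.2) '' np_Q G v))
    (h : gh K G e * y = 0) : y = 0 := by
  classical
  rw [Finsupp.mem_span_image_iff_linearCombination] at hy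
  obtain ⟨c, hc, rfl⟩ := hy
  rw [Finsupp.mem_supported] at hc
  rw [Finsupp.linearCombination_apply, Finsupp.sum] at h ⊢
  have hpath : ∀ p ∈ c.support, G.IsPath p.1 (p.2 ++ [e]) := by
    intro p hp
    have h1 := hc hp
    exact isPath_append.2 ⟨h1.1, by rw [h1.2]; exact ⟨he, trivial⟩⟩
  have hq : ∀ p ∈ c.support, gh K G e * qq K G p.1 p.2 = qq K G p.1 (p.2 ++ [e]) := by
    intro p hp
    have h1 := hc hp
    have h2 : G.IsPath v [e] := ⟨he, trivial⟩
    rw [qq_append (hpath p hp), h1.2, qq_cons h2, qq_nil, vx_gh]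
  have hinj : Set.InjOn (fun p : V × List E => (p.1, p.2 ++ [e])) (c.support : Set (V × List E)) := by
    rintro ⟨a1, a2⟩ _ ⟨b1, b2⟩ _ hab
    simp only [Prod.mk.injEq, List.append_cancel_right_eq] at hab
    rw [hab.1, hab.2]
  have hsum : ∑ q ∈ c.support.image (fun p : V × List E => (p.1, p.2 ++ [e])),
      (fun q : V × List E => c (q.1, q.2.dropLast)) q • qq K G q.1 q.2 = 0 := by
    rw [Finset.sum_image hinj, ← h, Finset.mul_sum]
    refine Finset.sum_congr rfl fun p hp => ?_
    simp only [List.dropLast_concat]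
    rw [mul_smul_comm, hq p hp]
  have hz := qq_li _ _ (by
    intro q hq'
    rw [Finset.mem_image] at hq'
    obtain ⟨p, hp, rfl⟩ := hq'
    exact hpath p hp) hsum
  refine Finset.sum_eq_zero fun p hp => ?_
  have h3 := hz (p.1, p.2 ++ [e]) (Finset.mem_image_of_mem _ hp)
  simp only [List.dropLast_concat] at h3
  rw [h3, zero_smul]

theorem f1 {v : V} (hv : ¬ Snk G v) {x : U K G} (hx : x ∈ L K G) (h1 : vx K G v * x = x)
    (h2 : ∀ e, G.s e = v → gh K G e * x = 0) : x = 0 := by
  have h0 : ∃ e, G.s e = v := by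
    by_contra h
    exact hv fun e he => h ⟨e, he⟩
  by_cases hf : {e | G.s e = v}.Finite
  · rw [← h1, vx_eq_sum v hf h0, Finset.sum_mul]
    refine Finset.sum_eq_zero fun e he => ?_
    rw [mul_assoc, h2 e ((Set.Finite.mem_toFinset hf).1 he), mul_zero]
  · obtain ⟨y, hy, F, z, hz, h⟩ := np_dec v hx
    rw [h1] at h
    obtain ⟨e, he, heF⟩ := Set.Infinite.exists_notMem_finset hf F
    have hy0 : y = 0 := by
      refine np_y he hy ?_
      have h3 := h2 e he
      rw [h, mul_add, np_Z_out hz heF, add_zero] at h3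
      exact h3
    rw [hy0, zero_add] at h
    rw [← h] at hz
    rw [hz]
    refine Finset.sum_eq_zero fun f _ => ?_
    by_cases hfv : G.s f = v
    · rw [h2 f hfv, mul_zero]
    · rw [← h1, ← gh_vx f, ← mul_assoc (gh K G f * vx K G (G.s f)), mul_assoc (gh K G f),
        vx_vx_of_ne hfv, mul_zero, zero_mul, mul_zero]

theorem f1_iter (N : ℕ) {v : V} {x : U K G} (hx : x ∈ L K G) (h1 : vx K G v * x = x)
    (h : ∀ l ∈ NP G N v, qq K G v l * x = 0) : x = 0 := by
  induction N generalizing v x with
  | zero =>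
    have h2 := h [] ⟨trivial, Or.inl rfl⟩
    rw [qq_nil, h1] at h2
    exact h2
  | succ N ih =>
    by_cases hs : Snk G v
    · have h2 := h [] ⟨trivial, Or.inr ⟨Nat.succ_pos N, hs⟩⟩
      rw [qq_nil, h1] at h2
      exact h2
    · refine f1 hs hx h1 fun e he => ?_
      refine ih (v := G.r e) ((L K G).mul_mem (gh_mem e) hx) ?_ ?_
      · rw [← mul_assoc, vx_gh]
      · intro l hl
        have hp : G.IsPath v (e :: l) := ⟨he, hl.1⟩
        have h3 := h (e :: l) ⟨hp, by
          rcases hl.2 with h4 | h4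
          · exact Or.inl (by rw [List.length_cons, h4])
          · exact Or.inr ⟨by rw [List.length_cons]; exact Nat.succ_lt_succ h4.1, h4.2⟩⟩
        rw [qq_cons hp, mul_assoc] at h3
        exact h3

theorem sep (N : ℕ) {v w : V} {x : U K G} (hx : x ∈ L K G) (h1 : vx K G v * x = x)
    (h2 : x * vx K G w = x)
    (h : ∀ l ∈ NP G N v, ∀ m ∈ NP G N w, qq K G v l * x * pp K G w m = 0) : x = 0 := by
  refine f1_iter N hx h1 fun l hl => ?_
  let _ : StarRing K := starRingOfComm
  have h3 : star (qq K G v l * x) = 0 := by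
    refine f1_iter N (v := w) (star_mem_L ((L K G).mul_mem (qq_mem hl.1) hx)) ?_ ?_
    · rw [← star_vx (K := K) (G := G) w, ← star_mul, mul_assoc, h2]
    · intro m hm
      rw [← star_pp, ← star_mul, h l hl m hm, star_zero]
  exact star_eq_zero.1 h3

theorem np_pre {N : ℕ} {v : V} {l m : List E} (hl : l ∈ NP G N v) (hm : m ∈ NP G N v)
    (hne : l ≠ m) : ¬ l <+: m := by
  rintro ⟨t, rfl⟩
  cases t with
  | nil => exact hne (List.append_nil l).symm
  | cons e t =>
    have h1 : (l ++ e :: t).length ≤ N := by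
      rcases hm.2 with h | h
      · exact h.le
      · exact h.1.le
    rw [List.length_append, List.length_cons] at h1
    have h2 : Snk G (G.tgt v l) := by
      rcases hl.2 with h | h
      · omega
      · exact h.2
    exact h2 e (isPath_append.1 hm.1).2.1

theorem orth {N : ℕ} {v : V} {l m : List E} (hl : l ∈ NP G N v) (hm : m ∈ NP G N v)
    (hne : l ≠ m) : qq K G v l * pp K G v m = 0 :=
  qq_mul_pp_ne hl.1 hm.1 (np_pre hl hm hne) (np_pre hm hl hne.symm)

end Pool.Agent.Helper32.RA
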