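import Pool.Agent.Helper32.RA.Pa

/-! Leavitt path algebras: compression by long paths.

PIECE RA-4. By `L_ind2`. For `x = c • (pp v' l' * qq w' m')` take `N` the maximum of the two lengths
and `R = {0, c}`: for `l ∈ NP G N' v`, `N ≤ N'`, the element `qq v l * pp v' l'` is `0` unless
`v = v'` and `l'` is an initial piece of `l`, `l = l' ++ l1` (the path `l` cannot be a proper initial
piece of `l'`, because then `l.length < l'.length ≤ N'`, so `l` ends at a sink); in this case it is
`qq _ l1`; in the same way `qq w' m' * pp v l` is `0` or `pp _ m1` with `l = m' ++ m1`. Finally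
`qq _ l1 * pp _ m1` is `0` unless one of `l1`, `m1` is an initial piece of the other one, and both
are final pieces of `l`. It has degree `m1.length - l1.length`. For the sum of two elements to work, prove
the stronger statement with `m = l.drop (l.length - n)` in the last line (this path does not depend
on `x`, so the statement is stable under sums): for `m1 = l1 ++ m` the path `m` of length `n` is a
final piece of `l`, and `qq _ l1 * pp _ m1 = pp (tgt v l) m`. -/

set_option autoImplicit false

universe k a b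

namespace Pool.Agent.Helper32.RA

open Pool.Agent.Helper32.LV

variable {V : Type a} {E : Type b} {K : Type k} [Field K] {G : Gr V E}

/-- the statement for one path `l` and one element `y` -/
def pfx_St (K : Type k) [Field K] (G : Gr V E) (R : Finset K) (v : V) (l : List E) (y : U K G) :
    Prop :=
  (∃ c ∈ R, cp 0 y = c • vx K G (G.tgt v l)) ∧
    ∀ n : ℕ, 0 < n → cp (n : ℤ) y = 0 ∨
      (n ≤ l.length ∧ G.IsPath (G.tgt v l) (l.drop (l.length - n)) ∧
        G.tgt (G.tgt v l) (l.drop (l.length - n)) = G.tgt v l ∧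
        ∃ c : K, cp (n : ℤ) y = c • pp K G (G.tgt v l) (l.drop (l.length - n)))

theorem pfx_zero {R : Finset K} (h0 : (0 : K) ∈ R) (v : V) (l : List E) :
    pfx_St K G R v l 0 := by
  refine ⟨⟨0, h0, ?_⟩, fun n _ => Or.inl (cp_zero _)⟩
  rw [cp_zero, zero_smul]

theorem pfx_add [DecidableEq K] {R R' : Finset K} {v : V} {l : List E} {x y : U K G}
    (hx : pfx_St K G R v l x) (hy : pfx_St K G R' v l y) :
    pfx_St K G ((R ×ˢ R').image fun p => p.1 + p.2) v l (x + y) := by
  obtain ⟨⟨c, hc, hc'⟩, hx2⟩ := hx
  obtain ⟨⟨d, hd, hd'⟩, hy2⟩ := hy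
  refine ⟨⟨c + d, Finset.mem_image.2 ⟨(c, d), Finset.mem_product.2 ⟨hc, hd⟩, rfl⟩, ?_⟩, ?_⟩
  · rw [cp_add, hc', hd', add_smul]
  · intro n hn
    rcases hx2 n hn with h1 | ⟨h1, h2, h3, c1, h4⟩
    · rcases hy2 n hn with h1' | ⟨h1', h2', h3', c2, h4'⟩
      · left; rw [cp_add, h1, h1', add_zero]
      · right
        exact ⟨h1', h2', h3', c2, by rw [cp_add, h1, h4', zero_add]⟩
    · rcases hy2 n hn with h1' | ⟨h1', h2', h3', c2, h4'⟩
      · right
        exact ⟨h1, h2, h3, c1, by rw [cp_add, h4, h1', add_zero]⟩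
      · right
        exact ⟨h1, h2, h3, c1 + c2, by rw [cp_add, h4, h4', add_smul]⟩

/-- a path in `NP G N v` is not a proper initial piece of a path of length at most `N` -/
theorem pfx_init {N : ℕ} {v : V} {l l' : List E} (hl : l ∈ NP G N v) (hl' : G.IsPath v l')
    (hN : l'.length ≤ N) (h : l <+: l') : l' <+: l := by
  obtain ⟨t, rfl⟩ := h
  cases t with
  | nil => simp
  | cons e t =>
    exfalso
    have h1 : l.length < N := by
      rw [List.length_append, List.length_cons] at hN
      omega
    rcases hl.2 with h2 | ⟨_, h2⟩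
    · omega
    · exact h2 e (isPath_append.1 hl').2.1

theorem pfx_left {N : ℕ} {v v' : V} {l l' : List E} (hl : l ∈ NP G N v) (hl' : G.IsPath v' l')
    (hN : l'.length ≤ N) : qq K G v l * pp K G v' l' = 0 ∨
      ∃ l1, v = v' ∧ l = l' ++ l1 ∧ G.IsPath (G.tgt v l') l1 ∧
        qq K G v l * pp K G v' l' = qq K G (G.tgt v l') l1 := by
  by_cases hv : v = v'
  · subst hv
    by_cases h1 : l' <+: l
    · obtain ⟨l1, rfl⟩ := h1
      right
      refine ⟨l1, rfl, rfl, (isPath_append.1 hl.1).2, ?_⟩
      rw [qq_append hl.1, mul_assoc, qq_mul_pp hl', qq_vx]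
    · by_cases h2 : l <+: l'
      · exact absurd (pfx_init hl hl' hN h2) h1
      · left
        exact qq_mul_pp_ne hl.1 hl' h2 h1
  · left
    exact qq_mul_pp_start hv l l'

theorem pfx_right {N : ℕ} {v w' : V} {l m' : List E} (hl : l ∈ NP G N v) (hm' : G.IsPath w' m')
    (hN : m'.length ≤ N) : qq K G w' m' * pp K G v l = 0 ∨
      ∃ m1, v = w' ∧ l = m' ++ m1 ∧ G.IsPath (G.tgt v m') m1 ∧
        qq K G w' m' * pp K G v l = pp K G (G.tgt v m') m1 := by
  by_cases hv : v = w'
  · subst hv
    by_cases h1 : m' <+: l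
    · obtain ⟨m1, rfl⟩ := h1
      right
      refine ⟨m1, rfl, rfl, (isPath_append.1 hl.1).2, ?_⟩
      rw [pp_append hl.1, ← mul_assoc, qq_mul_pp hm', vx_pp]
    · by_cases h2 : l <+: m'
      · exact absurd (pfx_init hl hm' hN h2) h1
      · left
        exact qq_mul_pp_ne hm' hl.1 h1 h2
  · left
    exact qq_mul_pp_start (fun h => hv h.symm) m' l

theorem pfx_basic [DecidableEq K] (c : K) (v' : V) (l' : List E) (w' : V) (m' : List E)
    (hl' : G.IsPath v' l') (hm' : G.IsPath w' m') (ht : G.tgt v' l' = G.tgt w' m') (N' : ℕ)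
    (h1 : l'.length ≤ N') (h2 : m'.length ≤ N') (v : V) (l : List E) (hl : l ∈ NP G N' v) :
    pfx_St K G {0, c} v l (qq K G v l * (c • (pp K G v' l' * qq K G w' m')) * pp K G v l) := by
  have h0R : (0 : K) ∈ ({0, c} : Finset K) := by simp
  have hcR : c ∈ ({0, c} : Finset K) := by simp
  have hy : qq K G v l * (c • (pp K G v' l' * qq K G w' m')) * pp K G v l =
      c • ((qq K G v l * pp K G v' l') * (qq K G w' m' * pp K G v l)) := by
    rw [mul_smul_comm, smul_mul_assoc]
    congr 1
    simp only [mul_assoc]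
  rw [hy]
  rcases pfx_left (K := K) hl hl' h1 with h3 | ⟨l1, hv, hll, hl1, h3⟩
  · rw [h3, zero_mul, smul_zero]
    exact pfx_zero h0R v l
  · rcases pfx_right (K := K) hl hm' h2 with h4 | ⟨m1, hw, hlm, hm1, h4⟩
    · rw [h4, mul_zero, smul_zero]
      exact pfx_zero h0R v l
    · subst hv
      subst hw
      rw [← ht] at hm1 h4
      rw [h3, h4]
      have htl : G.tgt (G.tgt v l') l1 = G.tgt v l := by rw [hll, tgt_append]
      have htm : G.tgt (G.tgt v l') m1 = G.tgt v l := by rw [hlm, tgt_append, ht]
      by_cases h5 : l1 <+: m1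
      · obtain ⟨m, rfl⟩ := h5
        have h6 : qq K G (G.tgt v l') l1 * pp K G (G.tgt v l') (l1 ++ m) =
            pp K G (G.tgt v l) m := by
          rw [pp_append hm1, ← mul_assoc, qq_mul_pp hl1, vx_pp, htl]
        have hmp : G.IsPath (G.tgt v l) m := by
          rw [← htl]; exact (isPath_append.1 hm1).2
        have hmt : G.tgt (G.tgt v l) m = G.tgt v l := by
          conv_rhs => rw [← htm, tgt_append, htl]
        have hhm : Hm (m.length : ℤ) (c • pp K G (G.tgt v l) m) := hm_smul c (hm_pp hmp)
        rw [h6]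
        cases m with
        | nil =>
          refine ⟨⟨c, hcR, ?_⟩, ?_⟩
          · have h7 : cp (0 : ℤ) (c • pp K G (G.tgt v l) []) = c • pp K G (G.tgt v l) [] :=
              cp_of_hm (by simpa using hhm)
            rw [h7, pp_nil]
          · intro n hn
            left
            refine cp_of_hm_ne hhm ?_
            simp only [List.length_nil, Nat.cast_zero, ne_eq, Nat.cast_eq_zero]
            omega
        | cons e m =>
          refine ⟨⟨0, h0R, ?_⟩, ?_⟩
          · rw [zero_smul]
            refine cp_of_hm_ne hhm ?_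
            rw [List.length_cons]
            push_cast
            omega
          · intro n hn
            by_cases h8 : n = (e :: m).length
            · right
              have h9 : l.drop (l.length - n) = e :: m := by
                have h10 : l = (m' ++ l1) ++ (e :: m) := by rw [hlm, List.append_assoc]
                rw [h8, h10, List.length_append, Nat.add_sub_cancel, List.drop_left]
              refine ⟨?_, ?_, ?_, c, ?_⟩
              · rw [hlm, h8]
                simp only [List.length_append]
                omega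
              · rw [h9]; exact hmp
              · rw [h9]; exact hmt
              · rw [h9, h8]
                exact cp_of_hm hhm
            · left
              refine cp_of_hm_ne hhm ?_
              exact_mod_cast h8
      · by_cases h6 : m1 <+: l1
        · obtain ⟨m, rfl⟩ := h6
          have h7 : qq K G (G.tgt v l') (m1 ++ m) * pp K G (G.tgt v l') m1 =
              qq K G (G.tgt v l) m := by
            rw [qq_append hl1, mul_assoc, qq_mul_pp hm1, htm, qq_vx]
          have hmp : G.IsPath (G.tgt v l) m := by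
            rw [← htm]; exact (isPath_append.1 hl1).2
          have hhm : Hm (-(m.length : ℤ)) (c • qq K G (G.tgt v l) m) := hm_smul c (hm_qq hmp)
          have hne : m ≠ [] := by
            rintro rfl
            apply h5
            simp
          have hpos : 0 < m.length := List.length_pos_iff.2 hne
          rw [h7]
          refine ⟨⟨0, h0R, ?_⟩, ?_⟩
          · rw [zero_smul]
            refine cp_of_hm_ne hhm ?_
            omega
          · intro n hn
            left
            refine cp_of_hm_ne hhm ?_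
            omega
        · rw [qq_mul_pp_ne hl1 hm1 h5 h6, smul_zero]
          exact pfx_zero h0R v l

theorem pfx_all {x : U K G} (hx : x ∈ L K G) : ∃ (N : ℕ) (R : Finset K), ∀ N', N ≤ N' → ∀ v : V,
    ∀ l ∈ NP G N' v, pfx_St K G R v l (qq K G v l * x * pp K G v l) := by
  classical
  refine L_ind2 (p := fun x => ∃ (N : ℕ) (R : Finset K), ∀ N', N ≤ N' → ∀ v : V,
    ∀ l ∈ NP G N' v, pfx_St K G R v l (qq K G v l * x * pp K G v l)) ?_ ?_ ?_ hx
  · refine ⟨0, {0}, fun N' _ v l _ => ?_⟩
    rw [mul_zero, zero_mul]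
    exact pfx_zero (by simp) v l
  · rintro x _ y _ ⟨N, R, h⟩ ⟨M, S, h'⟩
    refine ⟨max N M, (R ×ˢ S).image fun p => p.1 + p.2, fun N' hN' v l hl => ?_⟩
    rw [mul_add, add_mul]
    exact pfx_add (h N' (le_trans (le_max_left _ _) hN') v l hl)
      (h' N' (le_trans (le_max_right _ _) hN') v l hl)
  · intro c v' l' w' m' hl' hm' ht
    refine ⟨max l'.length m'.length, {0, c}, fun N' hN' v l hl => ?_⟩
    exact pfx_basic c v' l' w' m' hl' hm' ht N' (le_trans (le_max_left _ _) hN')
      (le_trans (le_max_right _ _) hN') v l hl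

theorem pfx {x : U K G} (hx : x ∈ L K G) : ∃ (N : ℕ) (R : Finset K), ∀ N', N ≤ N' → ∀ v : V,
    ∀ l ∈ NP G N' v,
    (∃ c ∈ R, cp 0 (qq K G v l * x * pp K G v l) = c • vx K G (G.tgt v l)) ∧
    ∀ n : ℕ, 0 < n → cp (n : ℤ) (qq K G v l * x * pp K G v l) = 0 ∨
      ∃ (c : K) (m : List E), G.IsPath (G.tgt v l) m ∧ G.tgt (G.tgt v l) m = G.tgt v l ∧
        m.length = n ∧ cp (n : ℤ) (qq K G v l * x * pp K G v l) = c • pp K G (G.tgt v l) m := by
  obtain ⟨N, R, h⟩ := pfx_all hx
  refine ⟨N, R, fun N' hN' v l hl => ?_⟩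
  obtain ⟨h1, h2⟩ := h N' hN' v l hl
  refine ⟨h1, fun n hn => ?_⟩
  rcases h2 n hn with h3 | ⟨h3, h4, h5, c, h6⟩
  · exact Or.inl h3
  · right
    refine ⟨c, l.drop (l.length - n), h4, h5, ?_, h6⟩
    rw [List.length_drop]
    omega

end Pool.Agent.Helper32.RA
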