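import Pool.Agent.Helper32.RA.Cn
import Pool.Agent.Helper32.RA.Np
import Pool.Agent.Helper32.RA.Pfx

/-! Leavitt path algebras: the centroid elements have degree zero away from the closed paths
without exits.

PIECE RA-7. First `deg_pos`. Suppose `cp n (T w) ≠ 0` with `n > 0`. Let `N` be as in `pfx` for
`T (vL w)`. By `sep` (applied to `cp n (T w)`, which is in `L` by `cp_mem`) there are `l, m ∈ NP G N w` with
`qq w l * cp n (T w) * pp w m ≠ 0`. This is a component of `qq w l * T w * pp w m` (`cp_mul_left`,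
`cp_mul_right`, `hm_pp`, `hm_qq`), so `l = m` by `orth` and `Cen.qp_ne`; with `u = tgt w l` we get
`cp n (T u) ≠ 0` by `Cen.qp_self`, and by `pfx` `cp n (T u) = c • pp u γ` with a closed path `γ` of
length `n` at `u`, `c ≠ 0`. By `Cen.comm` (take components: `qq u γ` is homogeneous) `pp u γ`
commutes with `qq u γ`, so `pp u γ * qq u γ = qq u γ * pp u γ = vx u`. Hence `γ` has no exit: if
`γ = γ1 ++ e :: γ2`, `G.s f = G.s e`, `f ≠ e`, then `qq u γ * pp u (γ1 ++ [f]) = 0` (`qq_mul_pp_ne`), so
`pp u (γ1 ++ [f]) = vx u * pp u (γ1 ++ [f]) = 0`, which contradicts `pp_ne_zero`. So `NE G u`, and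
`T u = c' • u` by the hypothesis, so `cp n (T u) = 0`, a contradiction. `deg`: for negative
degrees use `deg_pos` for the star of `T` (`Cen.star`, trivial involution `starRingOfComm` of `K`,
`cp_star`; `star (vL w) = vL w`), then `hm_of_cp`. -/

set_option autoImplicit false

universe k a b

namespace Pool.Agent.Helper32.RA

open Pool.Agent.Helper32.LV

variable {V : Type a} {E : Type b} {K : Type k} [Field K] {G : Gr V E}

/-- components of a compression -/
theorem deg_cp (n : ℤ) (t : U K G) {v : V} {l m : List E} (hl : G.IsPath v l)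
    (hm : G.IsPath v m) : cp (n - l.length + m.length) (qq K G v l * t * pp K G v m) =
      qq K G v l * cp n t * pp K G v m := by
  rw [cp_mul_right (hm_pp hm), cp_mul_left (hm_qq hl)]
  have h1 : n - (l.length : ℤ) + m.length - m.length - -(l.length : ℤ) = n := by ring
  rw [h1]

/-- a closed path whose element commutes with its adjoint has no exit -/
theorem deg_ne {u : V} {γ : List E} (h0 : γ ≠ []) (hp : G.IsPath u γ) (ht : G.tgt u γ = u)
    (hc : pp K G u γ * qq K G u γ = vx K G u) : NE G u := by
  refine ⟨γ, h0, hp, ht, ?_⟩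
  intro e he f hf
  by_contra hfe
  obtain ⟨g1, g2, rfl⟩ := List.append_of_mem he
  have h1 := isPath_append.1 hp
  have hy : G.IsPath u (g1 ++ [f]) := isPath_append.2 ⟨h1.1, hf.trans h1.2.1, trivial⟩
  have h2 : qq K G u (g1 ++ e :: g2) * pp K G u (g1 ++ [f]) = 0 := by
    refine qq_mul_pp_ne hp hy ?_ ?_
    · intro h3
      rw [List.prefix_append_right_inj] at h3
      exact hfe (List.cons_prefix_cons.1 h3).1.symm
    · intro h3
      rw [List.prefix_append_right_inj] at h3
      exact hfe (List.cons_prefix_cons.1 h3).1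
  refine pp_ne_zero (K := K) hy ?_
  rw [← vx_pp, ← hc, mul_assoc, h2, mul_zero]

theorem deg_pos {T : L K G → L K G} (hT : Cen T) {w : V} (h : ScA T w) {n : ℤ} (hn : 0 < n) :
    cp n (T (vL K G w) : U K G) = 0 := by
  obtain ⟨N, R, hN⟩ := pfx (T (vL K G w)).2
  obtain ⟨hL, hv1, hv2⟩ := hT.cor w
  have e1 : vx K G w * cp n (T (vL K G w) : U K G) = cp n (T (vL K G w) : U K G) := by
    have h1 := cp_mul_left (hm_vx (K := K) (G := G) w) n (T (vL K G w) : U K G)
    rw [hv1, sub_zero] at h1
    exact h1.symm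
  have e2 : cp n (T (vL K G w) : U K G) * vx K G w = cp n (T (vL K G w) : U K G) := by
    have h1 := cp_mul_right (hm_vx (K := K) (G := G) w) n (T (vL K G w) : U K G)
    rw [hv2, sub_zero] at h1
    exact h1.symm
  refine sep N (cp_mem hL n) e1 e2 fun l hl m hm => ?_
  rw [← deg_cp n _ hl.1 hm.1]
  by_cases hlm : l = m
  · subst hlm
    rw [hT.qp_self hl.1, sub_add_cancel]
    by_contra hne
    obtain ⟨k, rfl⟩ := Int.eq_ofNat_of_zero_le hn.le
    have hk : 0 < k := by exact_mod_cast hn
    rcases (hN N le_rfl w l hl).2 k hk with h3 | ⟨c, γ, h3, h4, h5, h6⟩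
    · rw [hT.qp_self hl.1] at h3
      exact hne h3
    · rw [hT.qp_self hl.1] at h6
      have hc : c ≠ 0 := by
        rintro rfl
        rw [zero_smul] at h6
        exact hne h6
      have hγ : γ ≠ [] := by
        rintro rfl
        rw [List.length_nil] at h5
        omega
      have hq : Cor (G.tgt w l) (qq K G (G.tgt w l) γ) := by
        refine ⟨qq_mem h3, ?_, qq_vx _ _⟩
        have h7 := vx_qq (K := K) h3
        rwa [h4] at h7
      have h7 := congrArg (cp 0) (hT.comm hq)
      rw [cp_mul_right (hm_qq h3), cp_mul_left (hm_qq h3)] at h7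
      have h8 : (0 : ℤ) - -(γ.length : ℤ) = (k : ℤ) := by
        rw [h5]
        ring
      rw [h8, h6, smul_mul_assoc, mul_smul_comm, qq_mul_pp h3, h4] at h7
      have h9 := congrArg (fun z => c⁻¹ • z) h7
      simp only [smul_smul, inv_mul_cancel₀ hc, one_smul] at h9
      obtain ⟨d, hd⟩ := h _ ⟨l, hl.1, rfl⟩ (deg_ne hγ h3 h4 h9)
      refine hne ?_
      rw [hd]
      change cp (k : ℤ) (d • vx K G (G.tgt w l)) = 0
      rw [cp_smul, cp_of_hm_ne (hm_vx _) hn.ne', smul_zero]
  · rw [hT.qp_ne hl.1 hm.1 (orth hl hm hlm), cp_zero]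

theorem deg {T : L K G → L K G} (hT : Cen T) {w : V} (h : ScA T w) :
    Hm 0 (T (vL K G w) : U K G) := by
  let _ : StarRing K := starRingOfComm
  refine hm_of_cp fun m hm => ?_
  rcases lt_or_gt_of_ne hm with h1 | h1
  · have hs : ∀ v : V, star (vL K G v) = vL K G v := fun v => Subtype.ext (star_vx v)
    have h2 : ScA (fun x => star (T (star x))) w := by
      intro u hu hN
      obtain ⟨c, hc⟩ := h u hu hN
      refine ⟨star c, ?_⟩
      change star (T (star (vL K G u))) = _
      rw [hs, hc]
      apply Subtype.ext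
      change star (c • vx K G u) = star c • vx K G u
      rw [star_smul, star_vx]
    have h3 := deg_pos hT.star h2 (n := -m) (by omega)
    change cp (-m) ((star (T (star (vL K G w))) : L K G) : U K G) = 0 at h3
    rw [hs] at h3
    change cp (-m) (star (T (vL K G w) : U K G)) = 0 at h3
    rw [cp_star, neg_neg] at h3
    exact star_eq_zero.1 h3
  · exact deg_pos hT h h1

end Pool.Agent.Helper32.RA
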