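import Pool.Agent.Helper32.RA.Deg
import Pool.Agent.Helper32.LV.Basic

/-! Leavitt path algebras: the centroid elements are locally diagonalizable.

PIECE RA-8. `eig`: let `N`, `R` be as in `pfx` for `T (vL w)`; for `l ∈ NP G N w` and
`u = tgt w l` we have `T u = qq w l * T w * pp w l` (`Cen.qp_self`), which is homogeneous of degree
`0` by `deg` (for `u`; `ScA T u` follows from `ScA T w`) and equals `c • u` with `c ∈ R` by
`pfx`. `poly`: let `y = P(T) w`, `P = ∏ c ∈ R, (X - C c)`. For `l, m ∈ NP G N w`: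
`qq w l * y * pp w m = 0` for `l ≠ m` (`Cen.aeval`, `Cen.qp_ne`, `orth`), and for `l = m` it is
`P(T) u = P(c) u = 0` (`Cen.qp_self`, `Module.End.aeval_apply_of_hasEigenvector` or a direct
induction). So `y = 0` by `sep`. `polyL`: `y = (∑ v ∈ F, v) * y` (`exists_unit`), take the union of
the sets `R` of the `v ∈ F` (if `R ⊆ R'` the polynomial of `R` divides that of `R'`).
`split`: Lagrange interpolation: `p c = Lagrange.basis R id c`; `∑ c ∈ R, p c - 1`,
`X * p c - C c * p c` and `p c * p c - p c` vanish at all points of `R`, so they are multiples of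
`∏ c ∈ R, (X - C c)` (if `R` is empty then `y = 0` by `polyL`). -/

set_option autoImplicit false

universe k a b

namespace Pool.Agent.Helper32.RA

open Pool.Agent.Helper32.LV

variable {V : Type a} {E : Type b} {K : Type k} [Field K] {G : Gr V E}

theorem eig_rch {T : L K G → L K G} {w u : V} (h : ScA T w) (hu : Rch G w u) : ScA T u := by
  obtain ⟨l, hl, rfl⟩ := hu
  rintro _ ⟨m, hm, rfl⟩ hne
  refine h _ ⟨l ++ m, isPath_append.2 ⟨hl, hm⟩, tgt_append⟩ hne

theorem eig {T : L K G → L K G} (hT : Cen T) {w : V} (h : ScA T w) : ∃ (N : ℕ) (R : Finset K),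
    ∀ l ∈ NP G N w, ∃ c ∈ R, T (vL K G (G.tgt w l)) = c • vL K G (G.tgt w l) := by
  obtain ⟨N, R, hR⟩ := pfx (T (vL K G w)).2
  refine ⟨N, R, fun l hl => ?_⟩
  obtain ⟨⟨c, hc, hc'⟩, -⟩ := hR N le_rfl w l hl
  refine ⟨c, hc, ?_⟩
  have h1 := Cen.qp_self hT hl.1
  rw [h1] at hc'
  have h2 : Hm 0 (T (vL K G (G.tgt w l)) : U K G) := deg hT (eig_rch h ⟨l, hl.1, rfl⟩)
  rw [cp_of_hm h2] at hc'
  exact Subtype.ext hc'

theorem eig_aeval {T : L K G → L K G} (hT : Cen T) {R : Finset K} {c : K} (hc : c ∈ R) {u : V}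
    (h : T (vL K G u) = c • vL K G u) :
    Polynomial.aeval hT.toEnd (∏ c ∈ R, (Polynomial.X - Polynomial.C c)) (vL K G u) = 0 := by
  have h0 : vL K G u ≠ 0 := fun h => vx_ne_zero (K := K) (G := G) u (congrArg Subtype.val h)
  have h1 : Module.End.HasEigenvector hT.toEnd c (vL K G u) := by
    refine ⟨?_, h0⟩
    rw [Module.End.mem_eigenspace_iff]
    exact h
  rw [Module.End.aeval_apply_of_hasEigenvector h1, Polynomial.eval_prod,
    Finset.prod_eq_zero hc (by simp), zero_smul]

theorem poly {T : L K G → L K G} (hT : Cen T) {w : V} (h : ScA T w) : ∃ R : Finset K,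
    Polynomial.aeval hT.toEnd (∏ c ∈ R, (Polynomial.X - Polynomial.C c)) (vL K G w) = 0 := by
  obtain ⟨N, R, hR⟩ := eig hT h
  refine ⟨R, ?_⟩
  have hS := Cen.aeval hT (∏ c ∈ R, (Polynomial.X - Polynomial.C c))
  obtain ⟨h1, h2, h3⟩ := Cen.cor hS w
  refine Subtype.ext (sep N h1 h2 h3 fun l hl m hm => ?_)
  by_cases hlm : l = m
  · subst hlm
    obtain ⟨c, hc, hc'⟩ := hR l hl
    have h4 := Cen.qp_self hS hl.1
    rw [h4, eig_aeval hT hc hc']
    rfl
  · exact Cen.qp_ne hS hl.1 hm.1 (orth hl hm hlm)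

theorem eig_dvd {T : L K G → L K G} (hT : Cen T) {P Q : Polynomial K} (hPQ : P ∣ Q) {y : L K G}
    (h : Polynomial.aeval hT.toEnd P y = 0) : Polynomial.aeval hT.toEnd Q y = 0 := by
  obtain ⟨Q', rfl⟩ := hPQ
  rw [mul_comm, map_mul, Module.End.mul_apply, h, map_zero]

theorem polyL {T : L K G → L K G} (hT : Cen T) (h : ∀ w, ScA T w) (y : L K G) :
    ∃ R : Finset K,
    Polynomial.aeval hT.toEnd (∏ c ∈ R, (Polynomial.X - Polynomial.C c)) y = 0 := by
  classical
  obtain ⟨F, hF, -⟩ := exists_unit y.2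
  choose R hR using fun w => poly hT (h w)
  refine ⟨F.biUnion R, ?_⟩
  have hS := Cen.aeval hT (∏ c ∈ F.biUnion R, (Polynomial.X - Polynomial.C c))
  have h1 : y = (∑ v ∈ F, vL K G v) * y := by
    refine Subtype.ext ?_
    rw [NonUnitalSubalgebra.coe_mul, AddSubmonoidClass.coe_finsetSum]
    exact hF.symm
  rw [h1, hS.mul1, map_sum, Finset.sum_eq_zero, zero_mul]
  intro v hv
  exact eig_dvd hT (Finset.prod_dvd_prod_of_subset _ _ _ (Finset.subset_biUnion_of_mem R hv))
    (hR v)

theorem eig_roots (R : Finset K) (q : Polynomial K) (h : ∀ c ∈ R, q.eval c = 0) :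
    (∏ c ∈ R, (Polynomial.X - Polynomial.C c)) ∣ q := by
  refine Finset.prod_dvd_of_coprime ?_ fun c hc => ?_
  · intro a _ b _ hab
    exact Polynomial.isCoprime_X_sub_C_of_isUnit_sub (sub_ne_zero.2 hab).isUnit
  · exact Polynomial.dvd_iff_isRoot.2 (h c hc)

theorem split {T : L K G → L K G} (hT : Cen T) (h : ∀ w, ScA T w) (y : L K G) :
    ∃ (R : Finset K) (p : K → Polynomial K),
      y = ∑ c ∈ R, Polynomial.aeval hT.toEnd (p c) y ∧
      (∀ c ∈ R, T (Polynomial.aeval hT.toEnd (p c) y) = c • Polynomial.aeval hT.toEnd (p c) y) ∧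
      ∀ c ∈ R, Polynomial.aeval hT.toEnd (p c) (Polynomial.aeval hT.toEnd (p c) y) =
        Polynomial.aeval hT.toEnd (p c) y := by
  classical
  obtain ⟨R, hR⟩ := polyL hT h y
  refine ⟨R, fun c => Lagrange.basis R id c, ?_, ?_, ?_⟩
  · rcases R.eq_empty_or_nonempty with rfl | hne
    · rw [Finset.prod_empty, map_one, Module.End.one_apply] at hR
      rw [Finset.sum_empty, hR]
    · have h1 := Lagrange.sum_basis (v := (id : K → K)) (fun a _ b _ hab => hab) hne
      have h2 : Polynomial.aeval hT.toEnd (∑ c ∈ R, Lagrange.basis R id c) y = y := by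
        rw [h1, map_one, Module.End.one_apply]
      rw [map_sum, LinearMap.sum_apply] at h2
      exact h2.symm
  · intro c hc
    have h1 : Polynomial.aeval hT.toEnd ((Polynomial.X - Polynomial.C c) *
        Lagrange.basis R id c) y = 0 := by
      refine eig_dvd hT (eig_roots R _ fun d hd => ?_) hR
      by_cases hdc : c = d
      · subst hdc
        simp
      · have h3 := Lagrange.eval_basis_of_ne (s := R) (v := (id : K → K)) hdc hd
        rw [Polynomial.eval_mul]
        simp only [id] at h3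
        rw [h3, mul_zero]
    rw [map_mul, Module.End.mul_apply, map_sub, Polynomial.aeval_X, Polynomial.aeval_C,
      LinearMap.sub_apply, Module.algebraMap_end_apply, sub_eq_zero] at h1
    exact h1
  · intro c hc
    have h1 : Polynomial.aeval hT.toEnd (Lagrange.basis R id c * Lagrange.basis R id c -
        Lagrange.basis R id c) y = 0 := by
      refine eig_dvd hT (eig_roots R _ fun d hd => ?_) hR
      rw [Polynomial.eval_sub, Polynomial.eval_mul]
      by_cases hdc : c = d
      · subst hdc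
        have h3 := Lagrange.eval_basis_self (s := R) (v := (id : K → K))
          (fun a _ b _ hab => hab) hc
        simp only [id] at h3
        rw [h3]
        ring
      · have h3 := Lagrange.eval_basis_of_ne (s := R) (v := (id : K → K)) hdc hd
        simp only [id] at h3
        rw [h3]
        ring
    rw [map_sub, map_mul, LinearMap.sub_apply, Module.End.mul_apply, sub_eq_zero] at h1
    exact h1

end Pool.Agent.Helper32.RA
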