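import Pool.Agent.Helper32.RA.Np
import Pool.Agent.Helper32.RA.Pfx

/-! Leavitt path algebras: the corner of a vertex on a closed path without exits.

PIECE RA-6. Let `γ` be a closed path without exits at `v`, as in `NE`. Every vertex on `γ` emits
exactly one edge, so for every `n` there is at most one path of length `n` from `v` (`ne_uniq`),
and `e * e* = s e` for the edges of `γ` (`vx_eq_sum`), so `ne_pq`. `ne_hm`: let `x` be in the
corner and homogeneous of degree `n ≥ 0`; let `N` be as in `pfx` and `l = γ ^ N` (repeated `N`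
times, length at least `N`), `l ∈ NP G l.length v`. Then `x = pp v l * (qq v l * x * pp v l) * qq v l`
(`ne_pq`) and `qq v l * x * pp v l` (homogeneous of degree `n`) is `c • pp v m` for a closed
path `m` of length `n`, or `0`; now `pp v l * pp v m = pp v m * pp v l` by `ne_uniq`. For `n < 0` apply this
to `star x` (trivial involution of `K`, `starRingOfComm`). `ne_unit`, `ne_idem`: compare the top and bottom
components of a product (`exists_top`, `cp_mul_top`, `exists_bot`, `cp_mul_bot`): by `ne_hm` and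
`ne_pq` the product of two non-zero homogeneous elements of the corner is not zero (they are
invertible in the corner). If `x` has degree `n ≠ 0` then `x - vx v` has two non-zero components and
is not zero and not invertible: `ne_scal`. -/

set_option autoImplicit false

universe k a b

namespace Pool.Agent.Helper32.RA

open Pool.Agent.Helper32.LV

variable {V : Type a} {E : Type b} {K : Type k} [Field K] {G : Gr V E}

private lemma ne_next_edge {v v' : V} {l : List E} (hl : G.IsPath v l) (ht : G.tgt v l = v') :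
    ∀ e ∈ l, G.r e = v' ∨ ∃ f ∈ l, G.s f = G.r e := by
  induction l generalizing v with
  | nil => intro e he; exact absurd he (by simp)
  | cons a l ih =>
    intro e he
    obtain ⟨_, h2⟩ := hl
    rcases List.mem_cons.1 he with rfl | he'
    · cases l with
      | nil => left; exact ht
      | cons b l' => right; exact ⟨b, by simp, h2.1⟩
    · rcases ih h2 ht e he' with h3 | ⟨f, hf, h3⟩
      · left; exact h3
      · right; exact ⟨f, List.mem_cons_of_mem _ hf, h3⟩

/-- a set of vertices containing `v`, closed under the edges, every vertex emits exactly one edge -/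
private lemma ne_set {v : V} (h : NE G v) : ∃ W : Set V, v ∈ W ∧ (∀ w ∈ W, ∃ e, G.s e = w) ∧
    (∀ e f, G.s e ∈ W → G.s f = G.s e → f = e) ∧ ∀ e, G.s e ∈ W → G.r e ∈ W := by
  obtain ⟨γ, h0, h1, h2, h3⟩ := h
  refine ⟨{w | ∃ e ∈ γ, G.s e = w}, ?_, ?_, ?_, ?_⟩
  · cases γ with
    | nil => exact absurd rfl h0
    | cons a l => exact ⟨a, by simp, h1.1⟩
  · rintro w ⟨e, _, he⟩
    exact ⟨e, he⟩
  · rintro e f ⟨a, ha, hae⟩ hf
    have e1 : e = a := h3 a ha e hae.symm
    have e2 : f = a := h3 a ha f (hf.trans hae.symm)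
    rw [e1, e2]
  · rintro e ⟨a, ha, hae⟩
    have e1 : e = a := h3 a ha e hae.symm
    rw [e1]
    rcases ne_next_edge h1 h2 a ha with h4 | ⟨f, hf, h4⟩
    · rw [h4]
      cases γ with
      | nil => exact absurd rfl h0
      | cons b l => exact ⟨b, by simp, h1.1⟩
    · exact ⟨f, hf, h4⟩

private lemma ne_uniq_aux {W : Set V} (hW2 : ∀ e f, G.s e ∈ W → G.s f = G.s e → f = e)
    (hW3 : ∀ e, G.s e ∈ W → G.r e ∈ W) : ∀ (l m : List E) (v : V), v ∈ W → G.IsPath v l →
    G.IsPath v m → l.length = m.length → l = m := by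
  intro l
  induction l with
  | nil =>
    intro m v _ _ _ he
    exact (List.length_eq_zero_iff.1 he.symm).symm
  | cons a l ih =>
    intro m v hv hl hm he
    cases m with
    | nil => exact absurd he (by simp)
    | cons b m =>
      have hab : b = a := hW2 a b (by rw [hl.1]; exact hv) (hm.1.trans hl.1.symm)
      subst hab
      have h1 := ih m (G.r b) (hW3 b (by rw [hl.1]; exact hv)) hl.2 hm.2 (by simpa using he)
      rw [h1]

theorem ne_uniq {v : V} (h : NE G v) {l m : List E} (hl : G.IsPath v l) (hm : G.IsPath v m)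
    (he : l.length = m.length) : l = m := by
  obtain ⟨W, hW0, _, hW2, hW3⟩ := ne_set h
  exact ne_uniq_aux hW2 hW3 l m v hW0 hl hm he

private lemma ne_ed_gh {W : Set V} (hW2 : ∀ e f, G.s e ∈ W → G.s f = G.s e → f = e) {e : E}
    (he : G.s e ∈ W) : ed K G e * gh K G e = vx K G (G.s e) := by
  have hset : {f | G.s f = G.s e} = {e} := by
    ext f
    constructor
    · intro hf; exact hW2 e f he hf
    · intro hf; rw [Set.mem_singleton_iff] at hf; subst hf; rfl
  have hfin : {f | G.s f = G.s e}.Finite := by rw [hset]; exact Set.finite_singleton e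
  rw [vx_eq_sum (K := K) (G := G) (G.s e) hfin ⟨e, rfl⟩]
  have h2 : hfin.toFinset = {e} := by
    ext f
    rw [Set.Finite.mem_toFinset, hset, Set.mem_singleton_iff, Finset.mem_singleton]
  rw [h2, Finset.sum_singleton]

private lemma ne_pq_aux {W : Set V} (hW2 : ∀ e f, G.s e ∈ W → G.s f = G.s e → f = e)
    (hW3 : ∀ e, G.s e ∈ W → G.r e ∈ W) : ∀ (l : List E) (v : V), v ∈ W → G.IsPath v l →
    pp K G v l * qq K G v l = vx K G v := by
  intro l
  induction l with
  | nil =>
    intro v _ _
    rw [pp_nil, qq_nil, vx_vx]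
  | cons a l ih =>
    intro v hv hl
    have hs : G.s a ∈ W := by rw [hl.1]; exact hv
    rw [pp_cons hl, qq_cons hl]
    calc ed K G a * pp K G (G.r a) l * (qq K G (G.r a) l * gh K G a)
        = ed K G a * (pp K G (G.r a) l * qq K G (G.r a) l) * gh K G a := by noncomm_ring
      _ = vx K G v := by
        rw [ih (G.r a) (hW3 a hs) hl.2, ed_vx, ne_ed_gh hW2 hs, hl.1]

theorem ne_pq {v : V} (h : NE G v) {l : List E} (hl : G.IsPath v l) :
    pp K G v l * qq K G v l = vx K G v := by
  obtain ⟨W, hW0, _, hW2, hW3⟩ := ne_set h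
  exact ne_pq_aux hW2 hW3 l v hW0 hl

private lemma ne_vx_ne (v : V) : vx K G v ≠ 0 := by
  have h : G.IsPath v [] := trivial
  have := pp_ne_zero (K := K) h
  rwa [pp_nil] at this

private lemma ne_rep {v : V} (h : NE G v) (N : ℕ) : ∃ l, G.IsPath v l ∧ G.tgt v l = v ∧
    N ≤ l.length := by
  obtain ⟨γ, h0, h1, h2, _⟩ := h
  have hpos : 1 ≤ γ.length := List.length_pos_iff.2 h0
  induction N with
  | zero => exact ⟨[], trivial, rfl, Nat.zero_le _⟩
  | succ N ih =>
    obtain ⟨l, hl1, hl2, hl3⟩ := ih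
    refine ⟨l ++ γ, isPath_append.2 ⟨hl1, by rw [hl2]; exact h1⟩, ?_, ?_⟩
    · rw [tgt_append, hl2, h2]
    · rw [List.length_append]; omega

private lemma ne_hm_nat {v : V} (h : NE G v) {x : U K G} (hx : Cor v x) {n : ℕ}
    (hn : Hm (n : ℤ) x) (h0 : x ≠ 0) : ∃ (c : K) (l : List E), c ≠ 0 ∧ G.IsPath v l ∧
    G.tgt v l = v ∧ l.length = n ∧ x = c • pp K G v l := by
  obtain ⟨hxL, hx1, hx2⟩ := hx
  obtain ⟨N, R, hN⟩ := pfx hxL
  obtain ⟨l, hl1, hl2, hl3⟩ := ne_rep h N
  have hNP : l ∈ NP G l.length v := ⟨hl1, Or.inl rfl⟩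
  obtain ⟨⟨c, _, hc⟩, hpos⟩ := hN l.length hl3 v l hNP
  rw [hl2] at hc hpos
  have hy : Hm (n : ℤ) (qq K G v l * x * pp K G v l) := by
    have h1 := hm_mul (hm_mul (hm_qq (K := K) hl1) hn) (hm_pp (K := K) hl1)
    have h2 : (-(l.length : ℤ) + n + l.length) = n := by ring
    rwa [h2] at h1
  have hpq := ne_pq (K := K) h hl1
  have hxe : x = pp K G v l * (qq K G v l * x * pp K G v l) * qq K G v l := by
    calc x = vx K G v * x * vx K G v := by rw [hx1, hx2]
      _ = (pp K G v l * qq K G v l) * x * (pp K G v l * qq K G v l) := by rw [hpq]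
      _ = _ := by noncomm_ring
  rcases Nat.eq_zero_or_pos n with hn0 | hn0
  · subst hn0
    have hy0 : qq K G v l * x * pp K G v l = c • vx K G v := by
      rw [← hc]; exact (cp_of_hm hy).symm
    have hxc : x = c • vx K G v := by
      rw [hxe, hy0, mul_smul_comm, smul_mul_assoc]
      congr 1
      have h3 := pp_vx (K := K) hl1
      rw [hl2] at h3
      rw [h3, hpq]
    refine ⟨c, [], ?_, trivial, rfl, rfl, ?_⟩
    · rintro rfl
      rw [zero_smul] at hxc
      exact h0 hxc
    · rw [pp_nil]; exact hxc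
  · rcases hpos n hn0 with hz | ⟨d, m, hm1, hm2, hm3, hd⟩
    · exfalso
      have hy0 : qq K G v l * x * pp K G v l = 0 := by
        rw [← hz]; exact (cp_of_hm hy).symm
      rw [hy0, mul_zero, zero_mul] at hxe
      exact h0 hxe
    · have hy0 : qq K G v l * x * pp K G v l = d • pp K G v m := by
        rw [← hd]; exact (cp_of_hm hy).symm
      have hlm : G.IsPath v (l ++ m) := isPath_append.2 ⟨hl1, by rw [hl2]; exact hm1⟩
      have hml : G.IsPath v (m ++ l) := isPath_append.2 ⟨hm1, by rw [hm2]; exact hl1⟩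
      have hcomm : pp K G v l * pp K G v m = pp K G v m * pp K G v l := by
        have e1 := pp_append (K := K) hlm
        have e2 := pp_append (K := K) hml
        rw [hl2] at e1
        rw [hm2] at e2
        rw [← e1, ← e2, ne_uniq h hlm hml (by
          rw [List.length_append, List.length_append, add_comm])]
      have hxd : x = d • pp K G v m := by
        rw [hxe, hy0, mul_smul_comm, smul_mul_assoc]
        congr 1
        rw [hcomm, mul_assoc, hpq]
        have h3 := pp_vx (K := K) hm1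
        rw [hm2] at h3
        exact h3
      refine ⟨d, m, ?_, hm1, hm2, hm3, hxd⟩
      rintro rfl
      rw [zero_smul] at hxd
      exact h0 hxd

theorem ne_hm {v : V} (h : NE G v) {x : U K G} (hx : Cor v x) {n : ℤ} (hn : Hm n x)
    (h0 : x ≠ 0) : ∃ (c : K) (l : List E), c ≠ 0 ∧ G.IsPath v l ∧ G.tgt v l = v ∧
    ((n = l.length ∧ x = c • pp K G v l) ∨ (n = -(l.length : ℤ) ∧ x = c • qq K G v l)) := by
  rcases le_or_gt 0 n with hn0 | hn0
  · obtain ⟨k, rfl⟩ := Int.eq_ofNat_of_zero_le hn0
    obtain ⟨c, l, h1, h2, h3, h4, h5⟩ := ne_hm_nat h hx hn h0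
    exact ⟨c, l, h1, h2, h3, Or.inl ⟨by rw [h4], h5⟩⟩
  · let _ : StarRing K := starRingOfComm
    obtain ⟨k, hk⟩ := Int.eq_ofNat_of_zero_le (a := -n) (by omega)
    have hs : Hm (k : ℤ) (star x) := by
      have := hm_star hn
      rwa [hk] at this
    have hs0 : star x ≠ 0 := fun h1 => h0 (by rw [← star_star x, h1, star_zero])
    have hsc : Cor v (star x) := by
      refine ⟨star_mem_L hx.1, ?_, ?_⟩
      · have := congrArg star hx.2.2
        rwa [star_mul, star_vx] at this
      · have := congrArg star hx.2.1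
        rwa [star_mul, star_vx] at this
    obtain ⟨c, l, h1, h2, h3, h4, h5⟩ := ne_hm_nat h hsc hs hs0
    refine ⟨c, l, h1, h2, h3, Or.inr ⟨by rw [h4]; omega, ?_⟩⟩
    have h6 := congrArg star h5
    rw [star_star, star_smul, star_pp] at h6
    exact h6

/-- homogeneous elements of degree zero in the corner are scalars -/
theorem ne_hm0 {v : V} (h : NE G v) {x : U K G} (hx : Cor v x) (hn : Hm 0 x) :
    ∃ c : K, x = c • vx K G v := by
  by_cases h0 : x = 0
  · exact ⟨0, by rw [h0, zero_smul]⟩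
  · obtain ⟨c, l, _, h2, h3, h4, h5⟩ := ne_hm_nat h hx (n := 0) (by exact_mod_cast hn) h0
    rw [List.length_eq_zero_iff] at h4
    subst h4
    rw [pp_nil] at h5
    exact ⟨c, h5⟩

private lemma ne_inv {v : V} (h : NE G v) {x : U K G} (hx : Cor v x) {n : ℤ} (hn : Hm n x)
    (h0 : x ≠ 0) : ∃ y : U K G, y * x = vx K G v := by
  obtain ⟨c, l, h1, h2, h3, ⟨_, h4⟩ | ⟨_, h4⟩⟩ := ne_hm h hx hn h0
  · refine ⟨c⁻¹ • qq K G v l, ?_⟩
    rw [h4, smul_mul_smul_comm, inv_mul_cancel₀ h1, one_smul, qq_mul_pp h2, h3]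
  · refine ⟨c⁻¹ • pp K G v l, ?_⟩
    rw [h4, smul_mul_smul_comm, inv_mul_cancel₀ h1, one_smul, ne_pq h h2]

private lemma ne_mul_ne {v : V} (h : NE G v) {x y : U K G} (hx : Cor v x) (hy : Cor v y) {n : ℤ}
    (hn : Hm n x) (h0 : x ≠ 0) (h1 : y ≠ 0) : x * y ≠ 0 := by
  intro h2
  obtain ⟨z, hz⟩ := ne_inv h hx hn h0
  apply h1
  calc y = vx K G v * y := hy.2.1.symm
    _ = z * x * y := by rw [hz]
    _ = z * (x * y) := by rw [mul_assoc]
    _ = 0 := by rw [h2, mul_zero]

private lemma ne_cor_cp {v : V} {x : U K G} (hx : Cor v x) (n : ℤ) : Cor v (cp n x) := by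
  refine ⟨cp_mem hx.1 n, ?_, ?_⟩
  · have h1 := cp_mul_left (hm_vx (K := K) (G := G) v) n x
    rw [sub_zero, hx.2.1] at h1
    exact h1.symm
  · have h1 := cp_mul_right (hm_vx (K := K) (G := G) v) n x
    rw [sub_zero, hx.2.2] at h1
    exact h1.symm

private lemma ne_cp_vx (v : V) {n : ℤ} (hn : n ≠ 0) : cp n (vx K G v) = 0 :=
  cp_of_hm_ne (hm_vx v) hn

theorem ne_unit {v : V} (h : NE G v) {x y : U K G} (hx : Cor v x) (hy : Cor v y)
    (hxy : x * y = vx K G v) : ∃ n, Hm n x := by
  have hx0 : x ≠ 0 := by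
    rintro rfl
    rw [zero_mul] at hxy
    exact ne_vx_ne v hxy.symm
  have hy0 : y ≠ 0 := by
    rintro rfl
    rw [mul_zero] at hxy
    exact ne_vx_ne v hxy.symm
  obtain ⟨a, ha, ha'⟩ := exists_top hx0
  obtain ⟨b, hb, hb'⟩ := exists_bot hx0
  obtain ⟨c, hc, hc'⟩ := exists_top hy0
  obtain ⟨d, hd, hd'⟩ := exists_bot hy0
  have h1 := (cp_mul_top ha' hc').1
  have h2 := (cp_mul_bot hb' hd').1
  rw [hxy] at h1 h2
  have h3 : a + c = 0 := by
    by_contra h3
    rw [ne_cp_vx v h3] at h1
    exact ne_mul_ne h (ne_cor_cp hx a) (ne_cor_cp hy c) (hm_cp a x) ha hc h1.symm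
  have h4 : b + d = 0 := by
    by_contra h4
    rw [ne_cp_vx v h4] at h2
    exact ne_mul_ne h (ne_cor_cp hx b) (ne_cor_cp hy d) (hm_cp b x) hb hd h2.symm
  have h5 : b ≤ a := by
    by_contra h5
    exact hb (ha' b (by omega))
  have h6 : d ≤ c := by
    by_contra h6
    exact hd (hc' d (by omega))
  have h7 : a = b := by omega
  refine ⟨a, hm_of_cp fun m hm => ?_⟩
  rcases lt_or_gt_of_ne hm with h8 | h8
  · exact hb' m (by omega)
  · exact ha' m h8

theorem ne_scal {v : V} (h : NE G v) {x y z : U K G} (hx : Cor v x) (hy : Cor v y)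
    (hz : Cor v z) (hxy : x * y = vx K G v)
    (hz' : x = vx K G v ∨ (x - vx K G v) * z = vx K G v) : ∃ c : K, x = c • vx K G v := by
  rcases hz' with hz' | hz'
  · exact ⟨1, by rw [hz', one_smul]⟩
  · obtain ⟨n, hn⟩ := ne_unit h hx hy hxy
    have hxc : Cor v (x - vx K G v) := by
      refine ⟨(L K G).sub_mem hx.1 (vx_mem v), ?_, ?_⟩
      · rw [mul_sub, hx.2.1, vx_vx]
      · rw [sub_mul, hx.2.2, vx_vx]
    obtain ⟨m, hm⟩ := ne_unit h hxc hz hz'
    have hx0 : x ≠ 0 := by
      rintro rfl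
      rw [zero_mul] at hxy
      exact ne_vx_ne v hxy.symm
    by_cases hn0 : n = 0
    · subst hn0
      exact ne_hm0 h hx hn
    · exfalso
      have h1 : cp n (x - vx K G v) = x := by
        rw [cp_sub, cp_of_hm hn, ne_cp_vx v hn0, sub_zero]
      have h2 : cp 0 (x - vx K G v) = - vx K G v := by
        rw [cp_sub, cp_of_hm_ne hn (Ne.symm hn0), cp_of_hm (hm_vx v), zero_sub]
      have h3 : n = m := by
        by_contra h3
        rw [cp_of_hm_ne hm h3] at h1
        exact hx0 h1.symm
      have h4 : (0 : ℤ) = m := by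
        by_contra h4
        rw [cp_of_hm_ne hm h4] at h2
        exact ne_vx_ne v (neg_eq_zero.1 h2.symm)
      omega

theorem ne_idem {v : V} (h : NE G v) {x : U K G} (hx : Cor v x) (hxx : x * x = x) :
    x = 0 ∨ x = vx K G v := by
  by_cases hx0 : x = 0
  · exact Or.inl hx0
  · right
    obtain ⟨a, ha, ha'⟩ := exists_top hx0
    obtain ⟨b, hb, hb'⟩ := exists_bot hx0
    have h1 := (cp_mul_top ha' ha').1
    have h2 := (cp_mul_bot hb' hb').1
    rw [hxx] at h1 h2
    have h3 : cp (a + a) x ≠ 0 := by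
      rw [h1]
      exact ne_mul_ne h (ne_cor_cp hx a) (ne_cor_cp hx a) (hm_cp a x) ha ha
    have h4 : cp (b + b) x ≠ 0 := by
      rw [h2]
      exact ne_mul_ne h (ne_cor_cp hx b) (ne_cor_cp hx b) (hm_cp b x) hb hb
    have h5 : a + a ≤ a := by
      by_contra h5
      exact h3 (ha' _ (by omega))
    have h6 : b ≤ b + b := by
      by_contra h6
      exact h4 (hb' _ (by omega))
    have h7 : b ≤ a := by
      by_contra h7
      exact hb (ha' b (by omega))
    have hm0 : Hm 0 x := hm_of_cp fun m hm => by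
      rcases lt_or_gt_of_ne hm with h8 | h8
      · exact hb' m (by omega)
      · exact ha' m (by omega)
    obtain ⟨c, hc⟩ := ne_hm0 h hx hm0
    have hc0 : c ≠ 0 := by
      rintro rfl
      rw [zero_smul] at hc
      exact hx0 hc
    have h8 : (c * c) • vx K G v = c • vx K G v := by
      rw [hc, smul_mul_smul_comm, vx_vx] at hxx
      exact hxx
    have h9 : c * c = c := by
      have h10 : (c * c - c) • vx K G v = 0 := by rw [sub_smul, h8, sub_self]
      rcases smul_eq_zero.1 h10 with h11 | h11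
      · exact sub_eq_zero.1 h11
      · exact absurd h11 (ne_vx_ne v)
    have h12 : c = 1 := mul_left_cancel₀ hc0 (by rw [h9, mul_one])
    rw [hc, h12, one_smul]

end Pool.Agent.Helper32.RA
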