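import Pool.Agent.Helper32.RA.Cn
import Pool.Agent.Helper32.RA.Ne

/-! Leavitt path algebras: conjugates of scalars by a ring isomorphism.

PIECE RA-11. `scal`: for `c = 0` clear. Otherwise `x = thc φ c u`, `y = thc φ c⁻¹ u` satisfy `x * y = u`,
and `x - u = thc φ (c - 1) u` is zero (`c = 1`) or has the inverse `thc φ (c - 1)⁻¹ u` in the corner;
use `ne_scal` and `Cen.cor`. -/

set_option autoImplicit false

universe k a b a' b'

namespace Pool.Agent.Helper32.RA

open Pool.Agent.Helper32.LV

variable {V : Type a} {E : Type b} {K : Type k} [Field K] {G : Gr V E}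
  {V' : Type a'} {E' : Type b'} {G' : Gr V' E'}

/-- the conjugate of the scalar `c` by the ring isomorphism `φ` -/
noncomputable def thc (φ : L K G ≃+* L K G') (c : K) (y : L K G') : L K G' := φ (c • φ.symm y)

theorem cen_thc (φ : L K G ≃+* L K G') (c : K) : Cen (thc φ c) := (cen_smul c).conj φ

theorem thc_one (φ : L K G ≃+* L K G') (y : L K G') : thc φ 1 y = y := by
  unfold thc
  rw [one_smul, RingEquiv.apply_symm_apply]
theorem thc_thc (φ : L K G ≃+* L K G') (c d : K) (y : L K G') :
    thc φ c (thc φ d y) = thc φ (c * d) y := by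
  unfold thc
  rw [RingEquiv.symm_apply_apply, smul_smul]
theorem thc_sub (φ : L K G ≃+* L K G') (c d : K) (y : L K G') :
    thc φ (c - d) y = thc φ c y - thc φ d y := by
  unfold thc
  rw [sub_smul, map_sub]

theorem scal_vv (u : V') : vL K G' u * vL K G' u = vL K G' u := Subtype.ext (vx_vx u)

theorem scal_mul (φ : L K G ≃+* L K G') (u : V') {c d : K} (h : c * d = 1) :
    thc φ c (vL K G' u) * thc φ d (vL K G' u) = vL K G' u := by
  rw [← (cen_thc φ c).mul1, ← (cen_thc φ d).mul2, scal_vv, thc_thc, h, thc_one]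

theorem scal (φ : L K G ≃+* L K G') {u : V'} (h : NE G' u) (c : K) :
    ∃ d : K, thc φ c (vL K G' u) = d • vL K G' u := by
  by_cases hc : c = 0
  · refine ⟨0, ?_⟩
    unfold thc
    rw [hc, zero_smul, zero_smul, map_zero]
  · have h1 := scal_mul φ u (mul_inv_cancel₀ hc)
    have key : ∃ z : U K G', Cor u z ∧ ((thc φ c (vL K G' u) : U K G') = vx K G' u ∨
        ((thc φ c (vL K G' u) : U K G') - vx K G' u) * z = vx K G' u) := by
      by_cases hc1 : c = 1
      · refine ⟨_, (cen_thc φ c).cor u, Or.inl ?_⟩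
        rw [hc1, thc_one]
        rfl
      · have h2 := scal_mul φ u (mul_inv_cancel₀ (sub_ne_zero.2 hc1))
        rw [thc_sub, thc_one] at h2
        exact ⟨_, (cen_thc φ (c - 1)⁻¹).cor u, Or.inr (congrArg Subtype.val h2)⟩
    obtain ⟨z, hz, hz'⟩ := key
    obtain ⟨d, hd⟩ := ne_scal h ((cen_thc φ c).cor u) ((cen_thc φ c⁻¹).cor u) hz
      (congrArg Subtype.val h1) hz'
    exact ⟨d, Subtype.ext hd⟩

theorem scA_thc (φ : L K G ≃+* L K G') (c : K) (w : V') : ScA (thc φ c) w :=
  fun _ _ h => scal φ h c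

end Pool.Agent.Helper32.RA
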