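import Pool.Agent.Helper32.RA.Phi
import Pool.Agent.Helper32.RA.Scal
import Pool.Agent.Helper32.RA.Eig
import Pool.Agent.Helper32.LV.Basic

/-! Leavitt path algebras: surjectivity of `Phi`.

PIECE RA-13. `intr`: first `ScA S w`: for `u = tgt w l` we have `S (S u) = S u` (compress
`S (S w) = S w` by `l`, `Cen.qp_self` for `S` and for `S ∘ S`), so
`S u * S u = S (u * S u) = S (S u) = S u` and `ne_idem` gives `S u = 0` or `S u = u` for `NE G u`. Then
`eig` gives `N` with `S (tgt w l) = c • tgt w l` for `l ∈ NP G N w`, `c * c = c` from `S (S u) = S u`, so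
`c = 0` or `c = 1`; now `intr0` (`Cen.qp_self`, `Cen.qp_ne`, `orth`, `Cen.cor`).
`surj0`: `T = thc φ c`, `y = φ (vL w)`, `split` gives `R`, `p`, `y = ∑ yκ`, and
`φ (c • vL w) = T y = ∑ κ • yκ`. With `S x = φ.symm (aeval T (p κ) (φ x))` (`Cen.conj` for `φ.symm`)
`S (vL w) = φ.symm yκ` and `S (S (vL w)) = S (vL w)`, so `Phi φ (φ.symm yκ) = yκ` by `intr`. -/

set_option autoImplicit false

universe k a b a' b'

namespace Pool.Agent.Helper32.RA

open Pool.Agent.Helper32.LV

variable {V : Type a} {E : Type b} {K : Type k} [Field K] {G : Gr V E}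
  {V' : Type a'} {E' : Type b'} {G' : Gr V' E'}

theorem sur_idem {S : L K G → L K G} (hS : Cen S) {w : V}
    (h : S (S (vL K G w)) = S (vL K G w)) {l : List E} (hl : G.IsPath w l) :
    S (S (vL K G (G.tgt w l))) = S (vL K G (G.tgt w l)) := by
  apply Subtype.ext
  rw [← (hS.comp hS).qp_self hl, h, hS.qp_self hl]

theorem sur_scA {S : L K G → L K G} (hS : Cen S) {w : V}
    (h : S (S (vL K G w)) = S (vL K G w)) : ScA S w := by
  rintro u ⟨l, hl, rfl⟩ hne
  have hss := sur_idem hS h hl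
  set u := G.tgt w l with hu
  have hc := hS.cor u
  have h1 : vL K G u * S (vL K G u) = S (vL K G u) := Subtype.ext hc.2.1
  have h2 : S (vL K G u) * S (vL K G u) = S (vL K G u) := by
    rw [← hS.mul1, h1, hss]
  have h3 : (S (vL K G u) : U K G) * (S (vL K G u) : U K G) = S (vL K G u) :=
    congrArg Subtype.val h2
  rcases ne_idem hne hc h3 with h4 | h4
  · refine ⟨0, Subtype.ext ?_⟩
    rw [zero_smul]
    exact h4
  · refine ⟨1, Subtype.ext ?_⟩
    rw [one_smul]
    exact h4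

theorem intr (φ : L K G ≃+* L K G') {S : L K G → L K G} (hS : Cen S) {w : V}
    (h : S (S (vL K G w)) = S (vL K G w)) : Phi φ (S (vL K G w) : U K G) = φ (S (vL K G w)) := by
  obtain ⟨N, R, hR⟩ := eig hS (sur_scA hS h)
  refine intr0 φ (hS.cor w) N ?_ ?_
  · intro l hl
    rw [hS.qp_self hl.1]
    obtain ⟨c, -, hc⟩ := hR l hl
    have h1 := sur_idem hS h hl.1
    rw [hc, hS.smul, hc, smul_smul] at h1
    have h2 : (c * c) • vx K G (G.tgt w l) = c • vx K G (G.tgt w l) := congrArg Subtype.val h1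
    have h3 : (c * c - c) • vx K G (G.tgt w l) = 0 := by rw [sub_smul, h2, sub_self]
    rcases smul_eq_zero.1 h3 with h4 | h4
    · have h5 : c * (c - 1) = 0 := by rw [← h4]; ring
      rcases mul_eq_zero.1 h5 with h6 | h6
      · left
        rw [hc, h6, zero_smul]
        rfl
      · right
        rw [hc, sub_eq_zero.1 h6, one_smul]
        rfl
    · exact absurd h4 (vx_ne_zero _)
  · intro l hl m hm hne
    exact hS.qp_ne hl.1 hm.1 (orth hl hm hne)

theorem surj0 (φ : L K G ≃+* L K G') (c : K) (w : V) :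
    ∃ x ∈ L K G, Phi φ x = φ (c • vL K G w) := by
  have hT := cen_thc φ c
  obtain ⟨R, p, h1, h2, h3⟩ := split hT (fun w' => scA_thc φ c w') (φ (vL K G w))
  set y : L K G' := φ (vL K G w) with hy
  have hmain : φ (c • vL K G w) = ∑ κ ∈ R, κ • Polynomial.aeval hT.toEnd (p κ) y := by
    have e1 : φ (c • vL K G w) = hT.toEnd y := by
      rw [Cen.toEnd_apply, thc, hy, RingEquiv.symm_apply_apply]
    rw [e1]
    conv_lhs => rw [h1]
    rw [map_sum]
    refine Finset.sum_congr rfl fun κ hκ => ?_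
    rw [Cen.toEnd_apply]
    exact h2 κ hκ
  have hin : ∀ κ ∈ R, Phi φ (φ.symm (Polynomial.aeval hT.toEnd (p κ) y) : U K G) =
      (Polynomial.aeval hT.toEnd (p κ) y : U K G') := by
    intro κ hκ
    have hS := (hT.aeval (p κ)).conj φ.symm
    have e2 : Phi φ (φ.symm (Polynomial.aeval hT.toEnd (p κ) y) : U K G) =
        φ (φ.symm (Polynomial.aeval hT.toEnd (p κ) y)) := intr φ hS (w := w) (by
      simp only [RingEquiv.symm_symm]
      rw [RingEquiv.apply_symm_apply, ← hy, h3 κ hκ])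
    rw [e2, RingEquiv.apply_symm_apply]
  refine ⟨∑ κ ∈ R, κ • (φ.symm (Polynomial.aeval hT.toEnd (p κ) y) : U K G), ?_, ?_⟩
  · exact Submodule.sum_mem (L K G).toSubmodule fun κ _ =>
      Submodule.smul_mem (L K G).toSubmodule κ (Subtype.mem _)
  · rw [hmain, map_sum]
    have e4 : ((∑ κ ∈ R, κ • Polynomial.aeval hT.toEnd (p κ) y : L K G') : U K G') =
        ∑ κ ∈ R, κ • (Polynomial.aeval hT.toEnd (p κ) y : U K G') := by
      have := map_sum (NonUnitalSubalgebraClass.subtype (L K G'))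
        (fun κ => κ • Polynomial.aeval hT.toEnd (p κ) y) R
      exact this
    rw [e4]
    refine Finset.sum_congr rfl fun κ hκ => ?_
    rw [map_smul, hin κ hκ]

theorem surj (φ : L K G ≃+* L K G') (y : L K G') : ∃ x ∈ L K G, Phi φ x = y := by
  have key : ∀ z : U K G, z ∈ L K G → ∀ hz : z ∈ L K G,
      ∃ x ∈ L K G, Phi φ x = φ ⟨z, hz⟩ := by
    intro z hz0
    refine L_ind (p := fun z => ∀ hz : z ∈ L K G, ∃ x ∈ L K G, Phi φ x = φ ⟨z, hz⟩)
      ?_ ?_ ?_ ?_ ?_ ?_ ?_ hz0
    · intro v _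
      exact ⟨vx K G v, vx_mem v, Phi_vx φ v⟩
    · intro e _
      exact ⟨ed K G e, ed_mem e, Phi_ed φ e⟩
    · intro e _
      exact ⟨gh K G e, gh_mem e, Phi_gh φ e⟩
    · intro hz
      refine ⟨0, (L K G).zero_mem, ?_⟩
      have : (⟨0, hz⟩ : L K G) = 0 := rfl
      rw [this, map_zero, map_zero]
      rfl
    · intro a ha b hb h1 h2 hz
      obtain ⟨x, hx, h3⟩ := h1 ha
      obtain ⟨x', hx', h4⟩ := h2 hb
      refine ⟨x + x', (L K G).add_mem hx hx', ?_⟩
      have : (⟨a + b, hz⟩ : L K G) = ⟨a, ha⟩ + ⟨b, hb⟩ := rfl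
      rw [this, map_add, map_add, h3, h4]
      rfl
    · intro a ha b hb h1 h2 hz
      obtain ⟨x, hx, h3⟩ := h1 ha
      obtain ⟨x', hx', h4⟩ := h2 hb
      refine ⟨x * x', (L K G).mul_mem hx hx', ?_⟩
      have : (⟨a * b, hz⟩ : L K G) = ⟨a, ha⟩ * ⟨b, hb⟩ := rfl
      rw [this, map_mul, map_mul, h3, h4]
      rfl
    · intro c a ha h1 hz
      obtain ⟨x, hx, h3⟩ := h1 ha
      obtain ⟨F, hF, -⟩ := exists_unit ha
      choose f hf hf' using fun v => surj0 φ c v
      refine ⟨(∑ v ∈ F, f v) * x, (L K G).mul_mem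
        (Submodule.sum_mem (L K G).toSubmodule fun v _ => hf v) hx, ?_⟩
      have e1 : (⟨c • a, hz⟩ : L K G) = (∑ v ∈ F, c • vL K G v) * ⟨a, ha⟩ := by
        apply Subtype.ext
        have e2 : ((∑ v ∈ F, c • vL K G v : L K G) : U K G) = ∑ v ∈ F, c • vx K G v :=
          map_sum (NonUnitalSubalgebraClass.subtype (L K G)) (fun v => c • vL K G v) F
        show c • a = ((∑ v ∈ F, c • vL K G v : L K G) : U K G) * a
        rw [e2, ← Finset.smul_sum, smul_mul_assoc, hF]
      rw [e1, map_mul, map_mul, map_sum, h3, map_sum]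
      have e3 : ((∑ v ∈ F, φ (c • vL K G v) : L K G') : U K G') =
          ∑ v ∈ F, (φ (c • vL K G v) : U K G') :=
        map_sum (NonUnitalSubalgebraClass.subtype (L K G')) (fun v => φ (c • vL K G v)) F
      show _ = ((∑ v ∈ F, φ (c • vL K G v) : L K G') : U K G') * _
      rw [e3]
      congr 1
      exact Finset.sum_congr rfl fun v _ => hf' v
  obtain ⟨x, hx, h⟩ := key (φ.symm y) (φ.symm y).2 (φ.symm y).2
  refine ⟨x, hx, ?_⟩
  rw [h]
  show ((φ (φ.symm y) : L K G') : U K G') = y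
  rw [RingEquiv.apply_symm_apply]

end Pool.Agent.Helper32.RA
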