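import Pool.Agent.Helper32.RA.Inj
import Pool.Agent.Helper32.RA.Sur
import Pool.Agent.Helper32.LV.Stmt2

/-! Leavitt path algebras: every ring isomorphism agrees on the generators with an isomorphism of
algebras. -/

set_option autoImplicit false

universe k a b a' b'

namespace Pool.Agent.Helper32.RA

open Pool.Agent.Helper32.LV

variable {V : Type a} {E : Type b} {K : Type k} [Field K] {G : Gr V E}
  {V' : Type a'} {E' : Type b'} {G' : Gr V' E'}

theorem mainL (φ : L K G ≃+* L K G') : ∃ f : L K G ≃+* L K G',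
    (∀ (c : K) (x : L K G), f (c • x) = c • f x) ∧
    (∀ v, f (vL K G v) = φ (vL K G v)) ∧ (∀ e, f (eL K G e) = φ (eL K G e)) ∧
    ∀ e, f (gL K G e) = φ (gL K G e) := by
  let F : L K G → L K G' := fun x => ⟨Phi φ (x : U K G), Phi_mem φ x.2⟩
  have hF : Function.Bijective F := by
    constructor
    · intro x y hxy
      have h1 : Phi φ (x : U K G) = Phi φ (y : U K G) := congrArg Subtype.val hxy
      have h2 : Phi φ ((x : U K G) - (y : U K G)) = 0 := by rw [map_sub, h1, sub_self]
      have h3 := inj φ ((L K G).sub_mem x.2 y.2) h2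
      exact Subtype.ext (sub_eq_zero.mp h3)
    · intro y
      obtain ⟨x, hx, h⟩ := surj φ y
      exact ⟨⟨x, hx⟩, Subtype.ext h⟩
  let f : L K G ≃ L K G' := Equiv.ofBijective F hF
  refine ⟨{ f with
    map_mul' := fun x y => Subtype.ext (map_mul (Phi φ) (x : U K G) (y : U K G))
    map_add' := fun x y => Subtype.ext (map_add (Phi φ) (x : U K G) (y : U K G)) }, ?_, ?_, ?_, ?_⟩
  · intro c x
    exact Subtype.ext (map_smul (Phi φ) c (x : U K G))
  · intro v
    exact Subtype.ext (Phi_vx φ v)
  · intro e
    exact Subtype.ext (Phi_ed φ e)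
  · intro e
    exact Subtype.ext (Phi_gh φ e)

end Pool.Agent.Helper32.RA
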