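import Pool.Agent.Helper32.RA.Defs

/-! Leavitt path algebras: the grading by the integers. -/

set_option autoImplicit false

universe k a b

namespace Pool.Agent.Helper32.RA

open Pool.Agent.Helper32.LV

variable {V : Type a} {E : Type b} {K : Type k} [Field K] {G : Gr V E}

theorem hm_vx (v : V) : Hm 0 (vx K G v) := lift_vx isRep_gr v
theorem hm_ed (e : E) : Hm 1 (ed K G e) := lift_ed isRep_gr e
theorem hm_gh (e : E) : Hm (-1) (gh K G e) := lift_gh isRep_gr e
theorem hm_zero (n : ℤ) : Hm n (0 : U K G) := by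
  unfold Hm
  rw [map_zero, AddMonoidAlgebra.single_zero]
theorem hm_add {n : ℤ} {x y : U K G} (hx : Hm n x) (hy : Hm n y) : Hm n (x + y) := by
  unfold Hm at *
  rw [map_add, hx, hy, AddMonoidAlgebra.single_add]
theorem hm_smul {n : ℤ} {x : U K G} (c : K) (hx : Hm n x) : Hm n (c • x) := by
  unfold Hm at *
  rw [map_smul, hx, AddMonoidAlgebra.smul_single]
theorem hm_mul {n m : ℤ} {x y : U K G} (hx : Hm n x) (hy : Hm m y) : Hm (n + m) (x * y) := by
  unfold Hm at *
  rw [map_mul, hx, hy, AddMonoidAlgebra.single_mul_single]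

theorem gr_algebraMap (c : K) : Hm 0 (algebraMap K (U K G) c) := by
  unfold Hm
  rw [AlgHom.commutes]
  rfl

theorem cp_zero (n : ℤ) : cp n (0 : U K G) = 0 := by
  unfold cp
  rw [map_zero]
  rfl
theorem cp_add (n : ℤ) (x y : U K G) : cp n (x + y) = cp n x + cp n y := by
  unfold cp
  rw [map_add]
  rfl
theorem cp_sub (n : ℤ) (x y : U K G) : cp n (x - y) = cp n x - cp n y := by
  unfold cp
  rw [map_sub]
  rfl
theorem cp_smul (n : ℤ) (c : K) (x : U K G) : cp n (c • x) = c • cp n x := by
  unfold cp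
  rw [map_smul]
  rfl

theorem gr_cp_finsum {ι : Type*} (n : ℤ) (S : Finset ι) (f : ι → U K G) :
    cp n (∑ i ∈ S, f i) = ∑ i ∈ S, cp n (f i) := by
  classical
  induction S using Finset.induction_on with
  | empty => rw [Finset.sum_empty, Finset.sum_empty, cp_zero]
  | insert i S hi ih => rw [Finset.sum_insert hi, Finset.sum_insert hi, cp_add, ih]

theorem cp_of_hm {n : ℤ} {x : U K G} (h : Hm n x) : cp n x = x := by
  unfold Hm at h
  unfold cp
  rw [h, AddMonoidAlgebra.coeff_single, Finsupp.single_eq_same]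

theorem cp_of_hm_ne {n m : ℤ} {x : U K G} (h : Hm n x) (hne : m ≠ n) : cp m x = 0 := by
  unfold Hm at h
  unfold cp
  rw [h, AddMonoidAlgebra.coeff_single, Finsupp.single_eq_of_ne hne]

theorem cp_mul_left {n : ℤ} {x : U K G} (h : Hm n x) (m : ℤ) (y : U K G) :
    cp m (x * y) = x * cp (m - n) y := by
  unfold Hm at h
  unfold cp
  rw [map_mul, h, AddMonoidAlgebra.coeff_single_mul_apply]
  congr 2
  omega

theorem cp_mul_right {n : ℤ} {y : U K G} (h : Hm n y) (m : ℤ) (x : U K G) :
    cp m (x * y) = cp (m - n) x * y := by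
  unfold Hm at h
  unfold cp
  rw [map_mul, h, AddMonoidAlgebra.coeff_mul_single_apply]
  congr 2

/-- the sum of the coefficients -/
noncomputable def gr_ev : AddMonoidAlgebra (U K G) ℤ →+ U K G where
  toFun f := f.coeff.sum fun _ x => x
  map_zero' := by
    change (0 : ℤ →₀ U K G).sum (fun _ x => x) = 0
    exact Finsupp.sum_zero_index
  map_add' f g := by
    change (f.coeff + g.coeff).sum (fun _ x => x) = _
    exact Finsupp.sum_add_index' (fun _ => rfl) (fun _ _ _ => rfl)

theorem gr_ev_single (n : ℤ) (x : U K G) : gr_ev (AddMonoidAlgebra.single n x) = x := by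
  change (Finsupp.single n x).sum (fun _ x => x) = x
  exact Finsupp.sum_single_index rfl

theorem gr_ev_mul (f g : AddMonoidAlgebra (U K G) ℤ) : gr_ev (f * g) = gr_ev f * gr_ev g := by
  induction f using AddMonoidAlgebra.induction_linear with
  | zero => rw [zero_mul, map_zero, zero_mul]
  | add p p' hp hp' => rw [add_mul, map_add, hp, hp', map_add, add_mul]
  | single i c =>
    induction g using AddMonoidAlgebra.induction_linear with
    | zero => rw [mul_zero, map_zero, mul_zero]
    | add q q' hq hq' => rw [mul_add, map_add, hq, hq', map_add, mul_add]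
    | single j d =>
      rw [AddMonoidAlgebra.single_mul_single, gr_ev_single, gr_ev_single, gr_ev_single]

theorem gr_ev_of_hm {n : ℤ} {x : U K G} (h : Hm n x) : gr_ev (gr x) = x := by
  unfold Hm at h
  rw [h, gr_ev_single]

theorem gr_ev_gr (x : U K G) : gr_ev (gr x) = x := by
  induction x using U_ind with
  | hk c => exact gr_ev_of_hm (gr_algebraMap c)
  | hv v => exact gr_ev_of_hm (hm_vx v)
  | he e => exact gr_ev_of_hm (hm_ed e)
  | hg e => exact gr_ev_of_hm (hm_gh e)
  | ha x y hx hy => rw [map_add, map_add, hx, hy]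
  | hm x y hx hy => rw [map_mul, gr_ev_mul, hx, hy]

theorem cp_sum (x : U K G) : ∃ S : Finset ℤ, x = ∑ n ∈ S, cp n x ∧ ∀ n, n ∉ S → cp n x = 0 := by
  refine ⟨(gr x).coeff.support, ?_, ?_⟩
  · exact (gr_ev_gr x).symm
  · intro n hn
    exact Finsupp.notMem_support_iff.1 hn

theorem gr_hm_of_coeff {x : U K G} {n : ℤ} (h : Hm n x) (m : ℤ) : Hm m (cp m x) := by
  by_cases hmn : m = n
  · subst hmn
    rw [cp_of_hm h]
    exact h
  · rw [cp_of_hm_ne h hmn]
    exact hm_zero m

theorem hm_finsum {ι : Type*} {n : ℤ} (S : Finset ι) (f : ι → U K G) (h : ∀ i ∈ S, Hm n (f i)) :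
    Hm n (∑ i ∈ S, f i) := by
  classical
  induction S using Finset.induction_on with
  | empty => rw [Finset.sum_empty]; exact hm_zero n
  | insert i S hi ih =>
    rw [Finset.sum_insert hi]
    exact hm_add (h i (Finset.mem_insert_self i S)) (ih fun j hj => h j (Finset.mem_insert_of_mem hj))

theorem hm_cp (n : ℤ) (x : U K G) : Hm n (cp n x) := by
  induction x using U_ind generalizing n with
  | hk c => exact gr_hm_of_coeff (gr_algebraMap c) n
  | hv v => exact gr_hm_of_coeff (hm_vx v) n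
  | he e => exact gr_hm_of_coeff (hm_ed e) n
  | hg e => exact gr_hm_of_coeff (hm_gh e) n
  | ha x y hx hy => rw [cp_add]; exact hm_add (hx n) (hy n)
  | hm x y hx hy =>
    obtain ⟨S, hS, -⟩ := cp_sum x
    have h1 : cp n (x * y) = ∑ i ∈ S, cp i x * cp (n - i) y := by
      conv_lhs => rw [hS]
      rw [Finset.sum_mul, gr_cp_finsum]
      exact Finset.sum_congr rfl fun i _ => cp_mul_left (hx i) n y
    rw [h1]
    refine hm_finsum S _ fun i _ => ?_
    have h2 := hm_mul (hx i) (hy (n - i))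
    have h3 : i + (n - i) = n := by omega
    rwa [h3] at h2

theorem gr_cp_mul (x y : U K G) : ∃ S : Finset ℤ, (∀ n, n ∉ S → cp n x = 0) ∧
    ∀ n, cp n (x * y) = ∑ i ∈ S, cp i x * cp (n - i) y := by
  obtain ⟨S, hS, hS'⟩ := cp_sum x
  refine ⟨S, hS', fun n => ?_⟩
  conv_lhs => rw [hS]
  rw [Finset.sum_mul, gr_cp_finsum]
  exact Finset.sum_congr rfl fun i _ => cp_mul_left (hm_cp i x) n y

theorem gr_mem_of_hm {n : ℤ} {x : U K G} (hx : x ∈ L K G) (h : Hm n x) (m : ℤ) : cp m x ∈ L K G := by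
  by_cases hmn : m = n
  · subst hmn
    rw [cp_of_hm h]
    exact hx
  · rw [cp_of_hm_ne h hmn]
    exact (L K G).zero_mem

theorem cp_mem {x : U K G} (hx : x ∈ L K G) (n : ℤ) : cp n x ∈ L K G := by
  refine L_ind (p := fun x => ∀ n, cp n x ∈ L K G) ?_ ?_ ?_ ?_ ?_ ?_ ?_ hx n
  · exact fun v => gr_mem_of_hm (vx_mem v) (hm_vx v)
  · exact fun e => gr_mem_of_hm (ed_mem e) (hm_ed e)
  · exact fun e => gr_mem_of_hm (gh_mem e) (hm_gh e)
  · intro m
    rw [cp_zero]
    exact (L K G).zero_mem
  · intro x _ y _ h1 h2 m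
    rw [cp_add]
    exact (L K G).add_mem (h1 m) (h2 m)
  · intro x _ y _ h1 h2 m
    obtain ⟨S, -, hS⟩ := gr_cp_mul x y
    rw [hS]
    exact sum_mem fun i _ => (L K G).mul_mem (h1 i) (h2 (m - i))
  · intro c x _ h m
    rw [cp_smul]
    exact (L K G).smul_mem _ (h m)

theorem eq_zero_of_cp {x : U K G} (h : ∀ n, cp n x = 0) : x = 0 := by
  obtain ⟨S, hS, -⟩ := cp_sum x
  rw [hS]
  exact Finset.sum_eq_zero fun i _ => h i

theorem hm_of_cp {n : ℤ} {x : U K G} (h : ∀ m, m ≠ n → cp m x = 0) : Hm n x := by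
  obtain ⟨S, hS, hS'⟩ := cp_sum x
  have h1 : x = cp n x := by
    conv_lhs => rw [hS]
    exact Finset.sum_eq_single n (fun m _ hm => h m hm) (fun hn => hS' n hn)
  rw [h1]
  exact hm_cp n x

theorem hm_unique {n m : ℤ} {x : U K G} (hn : Hm n x) (hm : Hm m x) (h0 : x ≠ 0) : n = m := by
  by_contra hne
  exact h0 ((cp_of_hm hm).symm.trans (cp_of_hm_ne hn (Ne.symm hne)))

theorem gr_star_of_hm [StarRing K] {n : ℤ} {x : U K G} (h : Hm n x) (h' : Hm (-n) (star x)) (m : ℤ) :
    cp m (star x) = star (cp (-m) x) := by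
  by_cases hmn : m = -n
  · have h1 : -m = n := by omega
    rw [h1, hmn, cp_of_hm h, cp_of_hm h']
  · have h1 : -m ≠ n := by omega
    rw [cp_of_hm_ne h h1, cp_of_hm_ne h' hmn, star_zero]

theorem cp_star [StarRing K] (n : ℤ) (x : U K G) : cp n (star x) = star (cp (-n) x) := by
  induction x using U_ind generalizing n with
  | hk c =>
    refine gr_star_of_hm (gr_algebraMap c) ?_ n
    rw [star_algebraMap']
    exact gr_algebraMap _
  | hv v =>
    refine gr_star_of_hm (hm_vx v) ?_ n
    rw [star_vx]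
    exact hm_vx v
  | he e =>
    refine gr_star_of_hm (hm_ed e) ?_ n
    rw [star_ed]
    exact hm_gh e
  | hg e =>
    refine gr_star_of_hm (hm_gh e) ?_ n
    rw [star_gh, neg_neg]
    exact hm_ed e
  | ha x y hx hy => rw [star_add, cp_add, cp_add, star_add, hx, hy]
  | hm x y hx hy =>
    obtain ⟨S, hS, -⟩ := cp_sum x
    have hi : ∀ i, Hm (-i) (star (cp i x)) := by
      intro i
      have h1 := hx (-i)
      rw [neg_neg] at h1
      rw [← h1]
      exact hm_cp _ _
    have h1 : star (x * y) = ∑ i ∈ S, star y * star (cp i x) := by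
      rw [star_mul]
      conv_lhs => rw [hS]
      rw [star_sum, Finset.mul_sum]
    have h2 : cp (-n) (x * y) = ∑ i ∈ S, cp i x * cp (-n - i) y := by
      conv_lhs => rw [hS]
      rw [Finset.sum_mul, gr_cp_finsum]
      exact Finset.sum_congr rfl fun i _ => cp_mul_left (hm_cp i x) (-n) y
    rw [h1, h2, gr_cp_finsum, star_sum]
    refine Finset.sum_congr rfl fun i _ => ?_
    rw [cp_mul_right (hi i), star_mul, hy]
    congr 3
    omega

theorem hm_star [StarRing K] {n : ℤ} {x : U K G} (h : Hm n x) : Hm (-n) (star x) := by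
  refine hm_of_cp fun m hm => ?_
  have h1 : -m ≠ n := by omega
  rw [cp_star, cp_of_hm_ne h h1, star_zero]

theorem exists_top {x : U K G} (h : x ≠ 0) : ∃ n, cp n x ≠ 0 ∧ ∀ m, n < m → cp m x = 0 := by
  classical
  have hne : (gr x).coeff.support.Nonempty := by
    by_contra hemp
    rw [Finset.not_nonempty_iff_eq_empty] at hemp
    refine h (eq_zero_of_cp fun n => ?_)
    exact Finsupp.notMem_support_iff.1 (by rw [hemp]; exact Finset.notMem_empty n)
  refine ⟨(gr x).coeff.support.max' hne, ?_, fun m hm => ?_⟩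
  · exact Finsupp.mem_support_iff.1 (Finset.max'_mem _ hne)
  · refine Finsupp.notMem_support_iff.1 fun hmem => ?_
    exact absurd (Finset.le_max' _ m hmem) (not_le.2 hm)

theorem exists_bot {x : U K G} (h : x ≠ 0) : ∃ n, cp n x ≠ 0 ∧ ∀ m, m < n → cp m x = 0 := by
  classical
  have hne : (gr x).coeff.support.Nonempty := by
    by_contra hemp
    rw [Finset.not_nonempty_iff_eq_empty] at hemp
    refine h (eq_zero_of_cp fun n => ?_)
    exact Finsupp.notMem_support_iff.1 (by rw [hemp]; exact Finset.notMem_empty n)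
  refine ⟨(gr x).coeff.support.min' hne, ?_, fun m hm => ?_⟩
  · exact Finsupp.mem_support_iff.1 (Finset.min'_mem _ hne)
  · refine Finsupp.notMem_support_iff.1 fun hmem => ?_
    exact absurd (Finset.min'_le _ m hmem) (not_le.2 hm)

theorem cp_mul_top {n m : ℤ} {x y : U K G} (hx : ∀ i, n < i → cp i x = 0)
    (hy : ∀ i, m < i → cp i y = 0) :
    cp (n + m) (x * y) = cp n x * cp m y ∧ ∀ i, n + m < i → cp i (x * y) = 0 := by
  obtain ⟨S, hS', hS⟩ := gr_cp_mul x y
  constructor
  · rw [hS]
    have h1 : n + m - n = m := by omega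
    rw [Finset.sum_eq_single n, h1]
    · intro i _ hi
      rcases lt_or_gt_of_ne hi with h2 | h2
      · rw [hy _ (by omega), mul_zero]
      · rw [hx _ h2, zero_mul]
    · intro hn
      rw [hS' n hn, zero_mul]
  · intro k hk
    rw [hS]
    refine Finset.sum_eq_zero fun i _ => ?_
    rcases lt_or_ge n i with h2 | h2
    · rw [hx _ h2, zero_mul]
    · rw [hy _ (by omega), mul_zero]

theorem cp_mul_bot {n m : ℤ} {x y : U K G} (hx : ∀ i, i < n → cp i x = 0)
    (hy : ∀ i, i < m → cp i y = 0) :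
    cp (n + m) (x * y) = cp n x * cp m y ∧ ∀ i, i < n + m → cp i (x * y) = 0 := by
  obtain ⟨S, hS', hS⟩ := gr_cp_mul x y
  constructor
  · rw [hS]
    have h1 : n + m - n = m := by omega
    rw [Finset.sum_eq_single n, h1]
    · intro i _ hi
      rcases lt_or_gt_of_ne hi with h2 | h2
      · rw [hx _ h2, zero_mul]
      · rw [hy _ (by omega), mul_zero]
    · intro hn
      rw [hS' n hn, zero_mul]
  · intro k hk
    rw [hS]
    refine Finset.sum_eq_zero fun i _ => ?_
    rcases lt_or_ge i n with h2 | h2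
    · rw [hx _ h2, zero_mul]
    · rw [hy _ (by omega), mul_zero]

end Pool.Agent.Helper32.RA
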