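import Pool.Agent.Helper32.RA.Np

/-! Leavitt path algebras: the reduction theorem.

PIECE RA-10. Let `x ∈ L`, `x ≠ 0`. Step 1: there are `a, b ∈ L` and a vertex `u` with
`a * x * b = c • u + ∑ j, d j • pp u (γ j)`, `c ≠ 0`, `γ j` non-empty closed paths at `u`
(a `Fin n`-family). By `ext_vx` we may assume `x = v x w`. Write `x` as a combination of elements
`pp v l * qq w m` (`L_ind2`), `N` larger than the lengths. By `sep` there are
`l ∈ NP G N v`, `m ∈ NP G N w` with `z = qq v l * x * pp w m ≠ 0`; every `qq v l * pp v l'` is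
zero or some `qq _ l1`, `l = l' ++ l1` and every `qq w m' * pp w m` is zero or some `pp _ m1`,
`m = m' ++ m1`; so `z` is a combination of real paths and adjoints of paths between
`tgt v l` and `tgt w m`. If there are adjoints of paths, multiply on the right by `pp _ ε` with `ε` the
longest of these (with non-zero coefficient after collecting equal terms): all terms become
real closed paths, exactly one of them trivial (for the adjoints: two adjoints in `z` are of final
pieces of `l`, of different lengths after collecting). If there are none, multiply on the left by the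
adjoint of the shortest real path. (Alternatively: choose `b = pp _ ε` with `z b` non-zero and only
real paths by degrees: use `cp` and `exists_bot`, `hm_pp`, `hm_qq`.)
Step 2: take such a presentation with the smallest `n` (`Nat.find`) over all `a, b, u, c, d, γ`. If
`n = 0`: first alternative. If some `γ j` has no exit: `NE G u`, second alternative (the
component of degree zero is `c • u ≠ 0`). Otherwise let `f ≠ e` be an exit of `γ 0 = γ1 ++ e :: γ2`,
`τ = γ1 ++ [f]`; multiply by `qq u τ` on the left and `pp u τ` on the right: `c • u` becomes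
`c • tgt u τ`, `qq u τ * pp u (γ j) * pp u τ` is `0` (for `j = 0` always) or `pp _ δ` for a
non-empty closed path `δ` (`γ j ++ τ = τ ++ δ`). So there is a presentation with fewer terms. -/

set_option autoImplicit false

universe k a b

namespace Pool.Agent.Helper32.RA

open Pool.Agent.Helper32.LV

variable {V : Type a} {E : Type b} {K : Type k} [Field K] {G : Gr V E}

/-- the non-empty closed paths at `u` -/
def red_C (G : Gr V E) (u : V) (δ : List E) : Prop :=
  δ ≠ [] ∧ G.IsPath u δ ∧ G.tgt u δ = u

/-- a combination of elements of paths -/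
noncomputable def red_S (K : Type k) [Field K] (G : Gr V E) (u : V) (l : List (K × List E)) :
    U K G := (l.map fun p => p.1 • pp K G u p.2).sum

theorem red_S_nil (u : V) : red_S K G u [] = 0 := rfl

theorem red_S_cons (u : V) (p : K × List E) (l : List (K × List E)) :
    red_S K G u (p :: l) = p.1 • pp K G u p.2 + red_S K G u l := by
  unfold red_S
  rw [List.map_cons, List.sum_cons]

theorem red_S_append (u : V) (l l' : List (K × List E)) :
    red_S K G u (l ++ l') = red_S K G u l + red_S K G u l' := by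
  unfold red_S
  rw [List.map_append, List.sum_append]

/-- transport of a combination -/
theorem red_tr {u t : V} (A B : U K G) (l : List (K × List E))
    (h : ∀ p ∈ l, A * pp K G u p.2 * B = 0 ∨
      ∃ δ, red_C G t δ ∧ A * pp K G u p.2 * B = pp K G t δ) :
    ∃ l' : List (K × List E), (∀ p ∈ l', red_C G t p.2) ∧ l'.length ≤ l.length ∧
      A * red_S K G u l * B = red_S K G t l' := by
  induction l with
  | nil =>
    refine ⟨[], fun p hp => absurd hp List.not_mem_nil, le_refl _, ?_⟩
    rw [red_S_nil, red_S_nil, mul_zero, zero_mul]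
  | cons p l ih =>
    obtain ⟨l', h1, h2, h3⟩ := ih fun q hq => h q (List.mem_cons_of_mem _ hq)
    have h4 : A * red_S K G u (p :: l) * B =
        p.1 • (A * pp K G u p.2 * B) + A * red_S K G u l * B := by
      rw [red_S_cons, mul_add, add_mul, mul_smul_comm, smul_mul_assoc]
    rcases h p List.mem_cons_self with h5 | ⟨δ, hδ, h5⟩
    · refine ⟨l', h1, h2.trans (Nat.le_succ _), ?_⟩
      rw [h4, h5, smul_zero, zero_add, h3]
    · refine ⟨(p.1, δ) :: l', ?_, Nat.succ_le_succ h2, ?_⟩
      · intro q hq
        rcases List.mem_cons.1 hq with rfl | hq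
        · exact hδ
        · exact h1 q hq
      · rw [h4, h5, h3, red_S_cons]

/-- compression of a closed path -/
theorem red_qp {u : V} {τ γ : List E} (hτ : G.IsPath u τ) (hγ : red_C G u γ) :
    qq K G u τ * pp K G u γ * pp K G u τ = 0 ∨
      ∃ δ, red_C G (G.tgt u τ) δ ∧
        qq K G u τ * pp K G u γ * pp K G u τ = pp K G (G.tgt u τ) δ := by
  obtain ⟨h0, h1, h2⟩ := hγ
  have h3 : G.IsPath u (γ ++ τ) := isPath_append.2 ⟨h1, by rw [h2]; exact hτ⟩
  have h4 : pp K G u γ * pp K G u τ = pp K G u (γ ++ τ) := by rw [pp_append h3, h2]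
  rw [mul_assoc, h4]
  by_cases h5 : τ <+: γ ++ τ
  · obtain ⟨δ, hδ⟩ := h5
    right
    have h6 : G.IsPath u (τ ++ δ) := by rw [hδ]; exact h3
    refine ⟨δ, ⟨?_, (isPath_append.1 h6).2, ?_⟩, ?_⟩
    · rintro rfl
      have := congrArg List.length hδ
      rw [List.length_append, List.length_append, List.length_nil] at this
      exact h0 (List.eq_nil_of_length_eq_zero (by omega))
    · have h7 : G.tgt u (τ ++ δ) = G.tgt u (γ ++ τ) := by rw [hδ]
      rw [tgt_append, tgt_append, h2] at h7
      exact h7
    · rw [← hδ, pp_append h6, ← mul_assoc, qq_mul_pp hτ, vx_pp]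
  · left
    refine qq_mul_pp_ne hτ h3 h5 ?_
    rintro h6
    have h7 := h6.length_le
    rw [List.length_append] at h7
    exact h0 (List.eq_nil_of_length_eq_zero (by omega))

/-- an exit kills the path -/
theorem red_exit {u : V} {γ1 γ2 : List E} {e f : E} (hτ : G.IsPath u (γ1 ++ [f]))
    (hγ : red_C G u (γ1 ++ e :: γ2)) (hfe : f ≠ e) :
    qq K G u (γ1 ++ [f]) * pp K G u (γ1 ++ e :: γ2) * pp K G u (γ1 ++ [f]) = 0 := by
  obtain ⟨h0, h1, h2⟩ := hγ
  rw [qq_mul_pp_ne hτ h1, zero_mul]
  · rintro ⟨δ, hδ⟩
    rw [List.append_assoc] at hδ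
    exact hfe (List.cons.inj (List.append_cancel_left hδ)).1
  · rintro ⟨δ, hδ⟩
    rw [List.append_assoc] at hδ
    exact hfe (List.cons.inj (List.append_cancel_left hδ)).1.symm

theorem red_cp {u : V} (l : List (K × List E)) (h : ∀ p ∈ l, red_C G u p.2) :
    cp 0 (red_S K G u l) = 0 := by
  induction l with
  | nil => rw [red_S_nil, cp_zero]
  | cons p l ih =>
    have h1 := h p List.mem_cons_self
    rw [red_S_cons, cp_add, cp_smul, ih fun q hq => h q (List.mem_cons_of_mem _ hq), add_zero,
      cp_of_hm_ne (hm_pp h1.2.1), smul_zero]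
    intro h2
    have h3 : p.2.length = 0 := by omega
    exact h1.1 (List.eq_nil_of_length_eq_zero h3)

theorem red_mem {u : V} (l : List (K × List E)) (h : ∀ p ∈ l, red_C G u p.2) :
    vx K G u * red_S K G u l = red_S K G u l ∧ red_S K G u l * vx K G u = red_S K G u l := by
  induction l with
  | nil => rw [red_S_nil, mul_zero, zero_mul]; exact ⟨rfl, rfl⟩
  | cons p l ih =>
    have h1 := h p List.mem_cons_self
    obtain ⟨h2, h3⟩ := ih fun q hq => h q (List.mem_cons_of_mem _ hq)
    have h4 : pp K G u p.2 * vx K G u = pp K G u p.2 := by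
      have := pp_vx (K := K) h1.2.1
      rwa [h1.2.2] at this
    rw [red_S_cons, mul_add, add_mul, h2, h3, mul_smul_comm, smul_mul_assoc, vx_pp, h4]
    exact ⟨rfl, rfl⟩

/-- step 2 -/
theorem red_step (n : ℕ) : ∀ (x : U K G), x ∈ L K G → ∀ (u : V) (c : K) (l : List (K × List E)),
    l.length ≤ n → c ≠ 0 → (∀ p ∈ l, red_C G u p.2) → x = c • vx K G u + red_S K G u l →
    ∃ a ∈ L K G, ∃ b ∈ L K G, ∃ u : V,
      (∃ c : K, c ≠ 0 ∧ a * x * b = c • vx K G u) ∨
      (NE G u ∧ Cor u (a * x * b) ∧ a * x * b ≠ 0) := by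
  induction n with
  | zero =>
    intro x _ u c l hl hc _ hx
    have h1 : l = [] := List.eq_nil_of_length_eq_zero (by omega)
    subst h1
    refine ⟨vx K G u, vx_mem u, vx K G u, vx_mem u, u, Or.inl ⟨c, hc, ?_⟩⟩
    rw [hx, red_S_nil, add_zero, mul_smul_comm, smul_mul_assoc, vx_vx, vx_vx]
  | succ n ih =>
    intro x hxL u c l hl hc hl' hx
    cases l with
    | nil =>
      refine ⟨vx K G u, vx_mem u, vx K G u, vx_mem u, u, Or.inl ⟨c, hc, ?_⟩⟩
      rw [hx, red_S_nil, add_zero, mul_smul_comm, smul_mul_assoc, vx_vx, vx_vx]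
    | cons p l =>
      have hp := hl' p List.mem_cons_self
      by_cases hex : ∀ e ∈ p.2, ∀ f, G.s f = G.s e → f = e
      · obtain ⟨h1, h2⟩ := red_mem (p :: l) hl'
        have h3 : vx K G u * x = x := by
          rw [hx, mul_add, h1, mul_smul_comm, vx_vx]
        have h4 : x * vx K G u = x := by
          rw [hx, add_mul, h2, smul_mul_assoc, vx_vx]
        refine ⟨vx K G u, vx_mem u, vx K G u, vx_mem u, u, Or.inr ?_⟩
        rw [h3, h4]
        refine ⟨⟨p.2, hp.1, hp.2.1, hp.2.2, hex⟩, ⟨hxL, h3, h4⟩, ?_⟩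
        intro h5
        have h6 : cp 0 x = c • vx K G u := by
          rw [hx, cp_add, red_cp _ hl', add_zero, cp_smul, cp_of_hm (hm_vx u)]
        rw [h5, cp_zero] at h6
        rcases smul_eq_zero.1 h6.symm with h7 | h7
        · exact hc h7
        · exact pp_ne_zero (K := K) (G := G) (v := u) (l := []) trivial (by rw [pp_nil, h7])
      · push Not at hex
        obtain ⟨e, he, f, hf, hfe⟩ := hex
        obtain ⟨γ1, γ2, hγ⟩ := List.append_of_mem he
        have h1 : G.IsPath u (γ1 ++ e :: γ2) := by rw [← hγ]; exact hp.2.1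
        have h2 := isPath_append.1 h1
        have hτ : G.IsPath u (γ1 ++ [f]) := by
          refine isPath_append.2 ⟨h2.1, ?_⟩
          have h3 : G.s e = G.tgt u γ1 := h2.2.1
          exact ⟨hf.trans h3, trivial⟩
        have h3 : qq K G u (γ1 ++ [f]) * pp K G u p.2 * pp K G u (γ1 ++ [f]) = 0 := by
          have := hp
          rw [hγ] at this ⊢
          exact red_exit hτ this hfe
        obtain ⟨l', h4, h5, h6⟩ := red_tr (K := K) (u := u) (t := G.tgt u (γ1 ++ [f]))
          (qq K G u (γ1 ++ [f])) (pp K G u (γ1 ++ [f])) l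
          (fun q hq => red_qp hτ (hl' q (List.mem_cons_of_mem _ hq)))
        have h7 : qq K G u (γ1 ++ [f]) * x * pp K G u (γ1 ++ [f]) =
            c • vx K G (G.tgt u (γ1 ++ [f])) + red_S K G (G.tgt u (γ1 ++ [f])) l' := by
          rw [hx, red_S_cons, mul_add, mul_add, add_mul, add_mul, h6, mul_smul_comm,
            mul_smul_comm, smul_mul_assoc, smul_mul_assoc, h3, smul_zero, zero_add, qq_vx,
            qq_mul_pp hτ]
        have hlen : l'.length ≤ n := by
          rw [List.length_cons] at hl
          omega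
        obtain ⟨a, ha, b, hb, u', h8⟩ := ih _ ((L K G).mul_mem ((L K G).mul_mem (qq_mem hτ) hxL)
          (pp_mem hτ)) _ c l' hlen hc h4 h7
        refine ⟨a * qq K G u (γ1 ++ [f]), (L K G).mul_mem ha (qq_mem hτ),
          pp K G u (γ1 ++ [f]) * b, (L K G).mul_mem (pp_mem hτ) hb, u', ?_⟩
        have h9 : a * qq K G u (γ1 ++ [f]) * x * (pp K G u (γ1 ++ [f]) * b) =
            a * (qq K G u (γ1 ++ [f]) * x * pp K G u (γ1 ++ [f])) * b := by
          simp only [mul_assoc]
        rw [h9]
        exact h8

/-- long paths on the right make everything real -/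
theorem red_real {x : U K G} (hx : x ∈ L K G) : ∃ N : ℕ, ∀ N', N ≤ N' → ∀ v w : V,
    ∀ m ∈ NP G N' w, ∃ f : List E →₀ K,
      (∀ l ∈ f.support, G.IsPath v l ∧ G.tgt v l = G.tgt w m) ∧
      vx K G v * x * pp K G w m = f.sum fun l c => c • pp K G v l := by
  classical
  refine L_ind2 (p := fun x => ∃ N : ℕ, ∀ N', N ≤ N' → ∀ v w : V,
    ∀ m ∈ NP G N' w, ∃ f : List E →₀ K,
      (∀ l ∈ f.support, G.IsPath v l ∧ G.tgt v l = G.tgt w m) ∧
      vx K G v * x * pp K G w m = f.sum fun l c => c • pp K G v l) ?_ ?_ ?_ hx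
  · refine ⟨0, fun N' _ v w m _ => ⟨0, ?_, ?_⟩⟩
    · intro l hl
      rw [Finsupp.support_zero] at hl
      exact absurd hl (Finset.notMem_empty _)
    · rw [mul_zero, zero_mul, Finsupp.sum_zero_index]
  · rintro x _ y _ ⟨N, hN⟩ ⟨M, hM⟩
    refine ⟨max N M, fun N' hN' v w m hm => ?_⟩
    obtain ⟨f, hf1, hf2⟩ := hN N' (le_trans (le_max_left _ _) hN') v w m hm
    obtain ⟨g, hg1, hg2⟩ := hM N' (le_trans (le_max_right _ _) hN') v w m hm
    refine ⟨f + g, ?_, ?_⟩
    · intro l hl
      rcases Finset.mem_union.1 (Finsupp.support_add hl) with h | h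
      · exact hf1 l h
      · exact hg1 l h
    · rw [mul_add, add_mul, hf2, hg2, Finsupp.sum_add_index']
      · intro l
        exact zero_smul _ _
      · intro l c c'
        exact add_smul _ _ _
  · intro c v' l' w' m' hl' hm' ht
    refine ⟨m'.length, fun N' hN' v w m hm => ?_⟩
    have hzero : vx K G v * (c • (pp K G v' l' * qq K G w' m')) * pp K G w m = 0 →
        ∃ f : List E →₀ K,
        (∀ l ∈ f.support, G.IsPath v l ∧ G.tgt v l = G.tgt w m) ∧
        vx K G v * (c • (pp K G v' l' * qq K G w' m')) * pp K G w m =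
          f.sum fun l c => c • pp K G v l := by
      intro h
      refine ⟨0, ?_, ?_⟩
      · intro l hl
        rw [Finsupp.support_zero] at hl
        exact absurd hl (Finset.notMem_empty _)
      · rw [h, Finsupp.sum_zero_index]
    by_cases hv : v = v'
    · subst hv
      by_cases hw : w = w'
      · subst hw
        have h0 : vx K G v * (c • (pp K G v l' * qq K G w m')) * pp K G w m =
            c • (pp K G v l' * (qq K G w m' * pp K G w m)) := by
          rw [mul_smul_comm, smul_mul_assoc, ← mul_assoc, vx_pp, mul_assoc]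
        by_cases h1 : m' <+: m
        · obtain ⟨δ, rfl⟩ := h1
          have h2 := isPath_append.1 hm.1
          have h3 : G.IsPath v (l' ++ δ) := isPath_append.2 ⟨hl', by rw [ht]; exact h2.2⟩
          refine ⟨Finsupp.single (l' ++ δ) c, ?_, ?_⟩
          · intro l hl
            have h4 := Finsupp.support_single_subset hl
            rw [Finset.mem_singleton] at h4
            subst h4
            exact ⟨h3, by rw [tgt_append, tgt_append, ht]⟩
          · rw [h0, pp_append hm.1, ← mul_assoc (qq K G w m'), qq_mul_pp hm', vx_pp,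
              Finsupp.sum_single_index (zero_smul K (pp K G v (l' ++ δ))), pp_append h3, ht]
        · refine hzero ?_
          rw [h0, qq_mul_pp_ne hm' hm.1 h1, mul_zero, smul_zero]
          intro h2
          obtain ⟨δ, rfl⟩ := h2
          rcases hm.2 with h3 | ⟨h3, h4⟩
          · have h5 : δ = [] := by
              refine List.eq_nil_of_length_eq_zero ?_
              rw [List.length_append] at hN'
              omega
            subst h5
            exact h1 (by rw [List.append_nil])
          · cases δ with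
            | nil => exact h1 (by rw [List.append_nil])
            | cons e δ =>
              have h5 := (isPath_append.1 hm').2.1
              exact h4 e h5
      · refine hzero ?_
        rw [mul_smul_comm, smul_mul_assoc, mul_assoc, mul_assoc (pp K G v l'),
          qq_mul_pp_start (fun h => hw h.symm), mul_zero, mul_zero, smul_zero]
    · refine hzero ?_
      rw [mul_smul_comm, smul_mul_assoc, ← vx_pp v' l', mul_assoc (vx K G v'), ← mul_assoc (vx K G v),
        vx_vx_of_ne hv, zero_mul, zero_mul, smul_zero]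

theorem red {x : U K G} (hx : x ∈ L K G) (h0 : x ≠ 0) : ∃ a ∈ L K G, ∃ b ∈ L K G, ∃ u : V,
    (∃ c : K, c ≠ 0 ∧ a * x * b = c • vx K G u) ∨
    (NE G u ∧ Cor u (a * x * b) ∧ a * x * b ≠ 0) := by
  classical
  obtain ⟨v, w, hvw⟩ : ∃ v w, vx K G v * x * vx K G w ≠ 0 := by
    by_contra hcon
    push Not at hcon
    refine h0 (ext_vx hx (L K G).zero_mem fun v w => ?_)
    rw [hcon v w, mul_zero, zero_mul]
  obtain ⟨N, hN⟩ := red_real hx
  have hyL : vx K G v * x * vx K G w ∈ L K G :=
    (L K G).mul_mem ((L K G).mul_mem (vx_mem v) hx) (vx_mem w)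
  have hy1 : vx K G v * (vx K G v * x * vx K G w) = vx K G v * x * vx K G w := by
    rw [mul_assoc, ← mul_assoc, vx_vx]
  have hy2 : vx K G v * x * vx K G w * vx K G w = vx K G v * x * vx K G w := by
    rw [mul_assoc, vx_vx]
  obtain ⟨m, hm, hm0⟩ : ∃ m ∈ NP G N w, vx K G v * x * pp K G w m ≠ 0 := by
    by_contra hcon
    push Not at hcon
    refine hvw (sep N hyL hy1 hy2 fun l _ m hm => ?_)
    have h1 : vx K G v * x * vx K G w * pp K G w m = vx K G v * x * pp K G w m := by
      rw [mul_assoc (vx K G v * x), vx_pp]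
    rw [mul_assoc, h1, hcon m hm, mul_zero]
  obtain ⟨f, hf1, hf2⟩ := hN N (le_refl _) v w m hm
  have hfs : f.support.Nonempty := by
    rw [Finsupp.support_nonempty_iff]
    rintro rfl
    exact hm0 (by rw [hf2, Finsupp.sum_zero_index])
  obtain ⟨l0, hl0, hmin⟩ := Finset.exists_min_image f.support List.length hfs
  obtain ⟨hl1, hl2⟩ := hf1 l0 hl0
  have hterm : ∀ l ∈ f.support.erase l0, qq K G v l0 * pp K G v l = 0 ∨
      ∃ δ, red_C G (G.tgt w m) δ ∧ qq K G v l0 * pp K G v l = pp K G (G.tgt w m) δ := by
    intro l hl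
    obtain ⟨hne, hls⟩ := Finset.mem_erase.1 hl
    obtain ⟨h1, h2⟩ := hf1 l hls
    have hlen := hmin l hls
    by_cases hp : l0 <+: l
    · obtain ⟨δ, rfl⟩ := hp
      right
      have h3 := isPath_append.1 h1
      rw [hl2] at h3
      refine ⟨δ, ⟨?_, h3.2, ?_⟩, ?_⟩
      · rintro rfl
        exact hne (List.append_nil _)
      · rw [tgt_append, hl2] at h2
        exact h2
      · rw [pp_append h1, ← mul_assoc, qq_mul_pp hl1, vx_pp, hl2]
    · left
      refine qq_mul_pp_ne hl1 h1 hp ?_
      intro hp2
      have h3 := hp2.eq_of_length (le_antisymm hp2.length_le hlen)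
      exact hne h3
  have hsum : ∀ S : Finset (List E), S ⊆ f.support.erase l0 →
      ∃ l : List (K × List E), (∀ p ∈ l, red_C G (G.tgt w m) p.2) ∧
        ∑ q ∈ S, f q • (qq K G v l0 * pp K G v q) = red_S K G (G.tgt w m) l := by
    intro S
    induction S using Finset.induction_on with
    | empty =>
      intro _
      exact ⟨[], fun p hp => absurd hp List.not_mem_nil, by rw [Finset.sum_empty, red_S_nil]⟩
    | insert q S hq ih =>
      intro hS
      obtain ⟨l, h1, h2⟩ := ih (fun a ha => hS (Finset.mem_insert_of_mem ha))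
      rw [Finset.sum_insert hq, h2]
      rcases hterm q (hS (Finset.mem_insert_self _ _)) with h3 | ⟨δ, h3, h4⟩
      · exact ⟨l, h1, by rw [h3, smul_zero, zero_add]⟩
      · refine ⟨(f q, δ) :: l, ?_, by rw [h4, red_S_cons]⟩
        intro p hp
        rcases List.mem_cons.1 hp with rfl | hp
        · exact h3
        · exact h1 p hp
  obtain ⟨l, h1, h2⟩ := hsum _ (Finset.Subset.refl _)
  have h3 : qq K G v l0 * x * pp K G w m = f l0 • vx K G (G.tgt w m) +
      red_S K G (G.tgt w m) l := by
    have h4 : qq K G v l0 * x * pp K G w m = qq K G v l0 * (vx K G v * x * pp K G w m) := by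
      rw [← mul_assoc, ← mul_assoc, qq_vx]
    rw [h4, hf2, Finsupp.sum, Finset.mul_sum, ← Finset.add_sum_erase _ _ hl0]
    simp only [mul_smul_comm]
    rw [h2, qq_mul_pp hl1, hl2]
  obtain ⟨a, ha, b, hb, u, h5⟩ := red_step l.length (qq K G v l0 * x * pp K G w m)
    ((L K G).mul_mem ((L K G).mul_mem (qq_mem hl1) hx) (pp_mem hm.1)) (G.tgt w m) (f l0) l
    (le_refl _) (Finsupp.mem_support_iff.1 hl0) h1 h3
  refine ⟨a * qq K G v l0, (L K G).mul_mem ha (qq_mem hl1),
    pp K G w m * b, (L K G).mul_mem (pp_mem hm.1) hb, u, ?_⟩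
  have h6 : a * qq K G v l0 * x * (pp K G w m * b) =
      a * (qq K G v l0 * x * pp K G w m) * b := by
    simp only [mul_assoc]
  rw [h6]
  exact h5

end Pool.Agent.Helper32.RA
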