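import Pool.Agent.Helper32.RA.Phi
import Pool.Agent.Helper32.RA.Scal
import Pool.Agent.Helper32.RA.Red

/-! Leavitt path algebras: injectivity of `Phi`.

PIECE RA-12. Let `x ≠ 0`, `Phi φ x = 0`; take `a, b, u` from `red`, `z = a * x * b`, `Phi φ z = 0`. If
`z = c • vx u`, `c ≠ 0`, then `φ (vL u) = 0`, so `vx u = 0`, contradiction. Otherwise `NE G u`, `z ≠ 0`
in the corner of `u`. For every `n` the component `cp n z` (in the corner again) is zero or
`c • δ` with `δ = pp u l` or `qq u l` and `n = l.length` or `-l.length` (`ne_hm`). By `Phi_pp`, `Phi_qq`: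
`φ.symm (Phi φ (c • δ)) = φ.symm (c • φ δ) = thc φ.symm c (vL u * δ) = thc φ.symm c (vL u) * δ = d • δ`
(`scal φ.symm`), which is homogeneous of degree `n`. The sum over `n` (`cp_sum`) is
`φ.symm (Phi φ z) = 0`, so every `φ.symm (Phi φ (cp n z)) = 0`, so `c • φ δ = Phi φ (cp n z) = 0`;
`φ δ ≠ 0`, so `c = 0` and `cp n z = 0` for all `n`; `z = 0`, contradiction. -/

set_option autoImplicit false

universe k a b a' b'

namespace Pool.Agent.Helper32.RA

open Pool.Agent.Helper32.LV

variable {V : Type a} {E : Type b} {K : Type k} [Field K] {G : Gr V E}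
  {V' : Type a'} {E' : Type b'} {G' : Gr V' E'}

theorem inj_vx (φ : L K G ≃+* L K G') {c : K} (hc : c ≠ 0) {u : V}
    (h : Phi φ (c • vx K G u) = 0) : False := by
  rw [map_smul, smul_eq_zero] at h
  rcases h with h | h
  · exact hc h
  · rw [Phi_vx] at h
    have h1 : φ (vL K G u) = 0 := Subtype.ext h
    rw [map_eq_zero_iff φ φ.injective] at h1
    exact vx_ne_zero (K := K) (G := G) u (congrArg Subtype.val h1)

/-- the inverse of the ring isomorphism on a multiple of the image of an element of the corner -/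
theorem inj_sc (φ : L K G ≃+* L K G') {u : V} (h : NE G u) (c : K) :
    ∃ d : K, ∀ δ : L K G, vL K G u * δ = δ → φ.symm (c • φ δ) = d • δ := by
  obtain ⟨d, hd⟩ := scal φ.symm h c
  refine ⟨d, fun δ hδ => ?_⟩
  have h1 : φ.symm (c • φ δ) = thc φ.symm c δ := rfl
  rw [h1, ← hδ, (cen_thc φ.symm c).mul1, hd, smul_mul_assoc]

theorem inj_hm (φ : L K G ≃+* L K G') {u : V} (hu : NE G u) {n : ℤ} {z : U K G} (hz : Cor u z)
    (hn : Hm n z) : Hm n ((φ.symm ⟨Phi φ z, Phi_mem φ hz.1⟩ : L K G) : U K G) ∧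
      (Phi φ z = 0 → z = 0) := by
  by_cases h0 : z = 0
  · subst h0
    refine ⟨?_, fun _ => rfl⟩
    have h1 : (⟨Phi φ 0, Phi_mem φ hz.1⟩ : L K G') = 0 := Subtype.ext (map_zero _)
    rw [h1, map_zero]
    exact hm_zero n
  · have key : ∃ (c : K) (δ : L K G), c ≠ 0 ∧ (δ : U K G) ≠ 0 ∧ Hm n (δ : U K G) ∧
        vL K G u * δ = δ ∧ Phi φ z = c • (φ δ : U K G') := by
      obtain ⟨c, l, hc, hl, ht, h | h⟩ := ne_hm hu hz hn h0
      · refine ⟨c, ⟨pp K G u l, pp_mem hl⟩, hc, pp_ne_zero hl, ?_, Subtype.ext (vx_pp u l), ?_⟩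
        · rw [h.1]; exact hm_pp hl
        · rw [h.2, map_smul, Phi_pp φ hl ⟨pp K G u l, pp_mem hl⟩ rfl]
      · refine ⟨c, ⟨qq K G u l, qq_mem hl⟩, hc, ?_, ?_, ?_, ?_⟩
        · intro h1
          have h2 := qq_mul_pp (K := K) hl
          have h3 : qq K G u l = 0 := h1
          rw [h3, zero_mul] at h2
          exact vx_ne_zero _ h2.symm
        · rw [h.1]; exact hm_qq hl
        · have h1 := vx_qq (K := K) hl
          rw [ht] at h1
          exact Subtype.ext h1
        · rw [h.2, map_smul, Phi_qq φ hl ⟨qq K G u l, qq_mem hl⟩ rfl]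
    obtain ⟨c, δ, hc, hδ0, hδn, hδ, hP⟩ := key
    refine ⟨?_, fun h => ?_⟩
    · obtain ⟨d, hd⟩ := inj_sc φ hu c
      have h1 : (⟨Phi φ z, Phi_mem φ hz.1⟩ : L K G') = c • φ δ := Subtype.ext hP
      rw [h1, hd δ hδ]
      exact hm_smul d hδn
    · rw [hP, smul_eq_zero] at h
      rcases h with h | h
      · exact absurd h hc
      · have h1 : φ δ = 0 := Subtype.ext h
        rw [map_eq_zero_iff φ φ.injective] at h1
        exact absurd (congrArg Subtype.val h1) hδ0

theorem inj_cor {u : V} {z : U K G} (hz : Cor u z) (n : ℤ) : Cor u (cp n z) := by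
  obtain ⟨h1, h2, h3⟩ := hz
  refine ⟨cp_mem h1 n, ?_, ?_⟩
  · have h4 := cp_mul_left (hm_vx (K := K) (G := G) u) n z
    rw [h2, sub_zero] at h4
    exact h4.symm
  · have h4 := cp_mul_right (hm_vx (K := K) (G := G) u) n z
    rw [h3, sub_zero] at h4
    exact h4.symm

theorem inj (φ : L K G ≃+* L K G') {x : U K G} (hx : x ∈ L K G) (h : Phi φ x = 0) : x = 0 := by
  by_contra h0
  obtain ⟨a, ha, b, hb, u, hu⟩ := red hx h0
  have hz0 : Phi φ (a * x * b) = 0 := by rw [map_mul, map_mul, h, mul_zero, zero_mul]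
  rcases hu with ⟨c, hc, hc'⟩ | ⟨hu, hz, hzn⟩
  · rw [hc'] at hz0
    exact inj_vx φ hc hz0
  · obtain ⟨z, rfl⟩ : ∃ z, z = a * x * b := ⟨_, rfl⟩
    have hc : ∀ n, Cor u (cp n (a * x * b)) := inj_cor hz
    obtain ⟨S, hS, hS'⟩ := cp_sum (a * x * b)
    refine hzn (eq_zero_of_cp fun n => (inj_hm φ hu (hc n) (hm_cp n _)).2 ?_)
    -- the sum of the homogeneous elements is zero
    obtain ⟨g, hg⟩ : ∃ g : ℤ → L K G, g = fun n =>
      φ.symm ⟨Phi φ (cp n (a * x * b)), Phi_mem φ (hc n).1⟩ := ⟨_, rfl⟩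
    have h1 : ∑ n ∈ S, g n = 0 := by
      rw [hg]
      simp only
      rw [← map_sum, map_eq_zero_iff φ.symm φ.symm.injective]
      apply Subtype.ext
      rw [AddSubmonoidClass.coe_finsetSum]
      simp only
      rw [← map_sum, ← hS, hz0]
      rfl
    have h2 : ∀ m, Hm m (g m : U K G) := fun m => by
      rw [hg]
      exact (inj_hm φ hu (hc m) (hm_cp m _)).1
    by_cases hn : n ∈ S
    · have h3 : cp n ((∑ m ∈ S, g m : L K G) : U K G) = (g n : U K G) := by
        rw [AddSubmonoidClass.coe_finsetSum, gr_cp_finsum, Finset.sum_eq_single n]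
        · exact cp_of_hm (h2 n)
        · intro m _ hm
          exact cp_of_hm_ne (h2 m) hm.symm
        · intro h; exact absurd hn h
      rw [h1] at h3
      have h4 : g n = 0 := by
        apply Subtype.ext
        rw [← h3]
        exact cp_zero n
      rw [hg] at h4
      simp only at h4
      rw [map_eq_zero_iff φ.symm φ.symm.injective] at h4
      exact congrArg Subtype.val h4
    · rw [hS' n hn, map_zero]

end Pool.Agent.Helper32.RA
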