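import Pool.Agent.Helper32.RA.Gr
import Pool.Agent.Helper32.LV.Basic

/-! Leavitt path algebras: the elements of paths.

PIECE RA-2. Elementary; `L_ind2` (the algebra is spanned by the elements `pp v l * qq w m` with
`tgt v l = tgt w m`): use `L_ind` for the span of these elements, the product of two of them is
zero or again of this form (compare `m` with the first path of the second element:
`qq_mul_pp_ne`, `pp_append`, `qq_append`). `qq_li`: take the component of degree `-n`, then
multiply on the right by `pp`. -/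

set_option autoImplicit false

universe k a b

namespace Pool.Agent.Helper32.RA

open Pool.Agent.Helper32.LV

variable {V : Type a} {E : Type b} {K : Type k} [Field K] {G : Gr V E}

theorem isPath_append {v : V} {l m : List E} :
    G.IsPath v (l ++ m) ↔ G.IsPath v l ∧ G.IsPath (G.tgt v l) m := by
  induction l generalizing v with
  | nil => simp [Gr.IsPath, Gr.tgt]
  | cons e l ih => simp only [List.cons_append, Gr.IsPath, Gr.tgt, ih, and_assoc]

theorem tgt_append {v : V} {l m : List E} : G.tgt v (l ++ m) = G.tgt (G.tgt v l) m := by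
  induction l generalizing v with
  | nil => simp [Gr.tgt]
  | cons e l ih => simp only [List.cons_append, Gr.tgt, ih]

/-- a non-empty path determines its start -/
theorem isPath_start {v w : V} {l : List E} (hl : l ≠ []) (hv : G.IsPath v l)
    (hw : G.IsPath w l) : v = w := by
  cases l with
  | nil => exact absurd rfl hl
  | cons e l => exact hv.1.symm.trans hw.1

theorem pp_nil (v : V) : pp K G v [] = vx K G v := by simp [pp]

theorem qq_nil (v : V) : qq K G v [] = vx K G v := by simp [qq]

theorem pp_cons {v : V} {e : E} {l : List E} (h : G.IsPath v (e :: l)) :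
    pp K G v (e :: l) = ed K G e * pp K G (G.r e) l := by
  have h1 : G.s e = v := h.1
  subst h1
  simp only [pp, List.map_cons, List.prod_cons]
  rw [← mul_assoc, vx_ed, ← mul_assoc, ed_vx]

theorem qq_cons {v : V} {e : E} {l : List E} (h : G.IsPath v (e :: l)) :
    qq K G v (e :: l) = qq K G (G.r e) l * gh K G e := by
  have h1 : G.s e = v := h.1
  subst h1
  simp only [qq, List.reverse_cons, List.map_append, List.map_cons, List.map_nil,
    List.prod_append, List.prod_cons, List.prod_nil, mul_one]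
  rw [mul_assoc, gh_vx, mul_assoc, vx_gh]

theorem vx_pp (v : V) (l : List E) : vx K G v * pp K G v l = pp K G v l := by
  rw [pp, ← mul_assoc, vx_vx]

theorem qq_vx (v : V) (l : List E) : qq K G v l * vx K G v = qq K G v l := by
  rw [qq, mul_assoc, vx_vx]

theorem pp_append {v : V} {l m : List E} (h : G.IsPath v (l ++ m)) :
    pp K G v (l ++ m) = pp K G v l * pp K G (G.tgt v l) m := by
  induction l generalizing v with
  | nil => rw [List.nil_append, pp_nil, Gr.tgt, vx_pp]
  | cons e l ih =>
    have h1 : G.IsPath v (e :: l) := (isPath_append.1 h).1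
    rw [List.cons_append] at h ⊢
    rw [pp_cons h, pp_cons h1, ih h.2, Gr.tgt, mul_assoc]

theorem qq_append {v : V} {l m : List E} (h : G.IsPath v (l ++ m)) :
    qq K G v (l ++ m) = qq K G (G.tgt v l) m * qq K G v l := by
  induction l generalizing v with
  | nil => rw [List.nil_append, qq_nil, Gr.tgt, qq_vx]
  | cons e l ih =>
    have h1 : G.IsPath v (e :: l) := (isPath_append.1 h).1
    rw [List.cons_append] at h ⊢
    rw [qq_cons h, qq_cons h1, ih h.2, Gr.tgt, mul_assoc]

theorem pp_vx {v : V} {l : List E} (h : G.IsPath v l) :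
    pp K G v l * vx K G (G.tgt v l) = pp K G v l := by
  induction l generalizing v with
  | nil => rw [pp_nil, Gr.tgt, vx_vx]
  | cons e l ih => rw [pp_cons h, Gr.tgt, mul_assoc, ih h.2]

theorem vx_qq {v : V} {l : List E} (h : G.IsPath v l) :
    vx K G (G.tgt v l) * qq K G v l = qq K G v l := by
  induction l generalizing v with
  | nil => rw [qq_nil, Gr.tgt, vx_vx]
  | cons e l ih => rw [qq_cons h, Gr.tgt, ← mul_assoc, ih h.2]

theorem qq_mul_pp {v : V} {l : List E} (h : G.IsPath v l) :
    qq K G v l * pp K G v l = vx K G (G.tgt v l) := by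
  induction l generalizing v with
  | nil => rw [qq_nil, pp_nil, Gr.tgt, vx_vx]
  | cons e l ih =>
    rw [pp_cons h, qq_cons h, Gr.tgt, mul_assoc, ← mul_assoc (gh K G e), gh_ed, vx_pp, ih h.2]

/-- neither of the two paths is an initial piece of the other one -/
theorem qq_mul_pp_ne {v : V} {l m : List E} (hl : G.IsPath v l) (hm : G.IsPath v m)
    (h1 : ¬ l <+: m) (h2 : ¬ m <+: l) : qq K G v l * pp K G v m = 0 := by
  induction l generalizing v m with
  | nil => exact absurd List.nil_prefix h1
  | cons e l ih =>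
    cases m with
    | nil => exact absurd List.nil_prefix h2
    | cons f m =>
      rw [pp_cons hm, qq_cons hl, mul_assoc, ← mul_assoc (gh K G e)]
      by_cases hef : e = f
      · subst hef
        rw [gh_ed, vx_pp]
        refine ih hl.2 hm.2 (fun h => h1 ?_) (fun h => h2 ?_)
        · exact (List.prefix_cons_inj e).2 h
        · exact (List.prefix_cons_inj e).2 h
      · rw [gh_ed_of_ne hef, zero_mul, mul_zero]

theorem qq_mul_pp_start {v w : V} (h : v ≠ w) (l m : List E) :
    qq K G v l * pp K G w m = 0 := by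
  rw [pp, qq, mul_assoc, ← mul_assoc (vx K G v), vx_vx_of_ne h, zero_mul, mul_zero]

theorem pp_mem {v : V} {l : List E} (h : G.IsPath v l) : pp K G v l ∈ L K G := by
  induction l generalizing v with
  | nil => rw [pp_nil]; exact vx_mem v
  | cons e l ih => rw [pp_cons h]; exact (L K G).mul_mem (ed_mem e) (ih h.2)

theorem qq_mem {v : V} {l : List E} (h : G.IsPath v l) : qq K G v l ∈ L K G := by
  induction l generalizing v with
  | nil => rw [qq_nil]; exact vx_mem v
  | cons e l ih => rw [qq_cons h]; exact (L K G).mul_mem (ih h.2) (gh_mem e)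

theorem pp_ne_zero {v : V} {l : List E} (h : G.IsPath v l) : pp K G v l ≠ 0 := by
  intro h0
  have h1 := qq_mul_pp (K := K) h
  rw [h0, mul_zero] at h1
  exact vx_ne_zero _ h1.symm

theorem hm_pp {v : V} {l : List E} (h : G.IsPath v l) : Hm (l.length : ℤ) (pp K G v l) := by
  induction l generalizing v with
  | nil => rw [pp_nil]; exact hm_vx v
  | cons e l ih =>
    rw [pp_cons h, List.length_cons]
    have h1 := hm_mul (hm_ed (K := K) (G := G) e) (ih h.2)
    have h2 : (1 : ℤ) + (l.length : ℤ) = ((l.length + 1 : ℕ) : ℤ) := by push_cast; ring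
    rwa [h2] at h1

theorem hm_qq {v : V} {l : List E} (h : G.IsPath v l) :
    Hm (-(l.length : ℤ)) (qq K G v l) := by
  induction l generalizing v with
  | nil => rw [qq_nil]; exact hm_vx v
  | cons e l ih =>
    rw [qq_cons h, List.length_cons]
    have h1 := hm_mul (ih h.2) (hm_gh (K := K) (G := G) e)
    have h2 : -(l.length : ℤ) + -1 = -((l.length + 1 : ℕ) : ℤ) := by push_cast; ring
    rwa [h2] at h1

theorem pa_star_prod [StarRing K] (l : List E) :
    star ((l.map (ed K G)).prod) = (l.reverse.map (gh K G)).prod := by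
  induction l with
  | nil => simp
  | cons e l ih =>
    simp only [List.map_cons, List.prod_cons, List.reverse_cons, List.map_append, List.map_nil,
      List.prod_append, List.prod_nil, mul_one]
    rw [star_mul, ih, star_ed]

theorem star_pp [StarRing K] (v : V) (l : List E) : star (pp K G v l) = qq K G v l := by
  rw [pp, qq, star_mul, pa_star_prod, star_vx]

theorem star_qq [StarRing K] (v : V) (l : List E) : star (qq K G v l) = pp K G v l := by
  rw [← star_pp, star_star]

/-- the elements `pp v l * qq w m` -/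
def pa_S (K : Type k) [Field K] (G : Gr V E) : Set (U K G) :=
  {x | ∃ (v : V) (l : List E) (w : V) (m : List E), G.IsPath v l ∧ G.IsPath w m ∧
    G.tgt v l = G.tgt w m ∧ x = pp K G v l * qq K G w m}

theorem pa_mul {x y : U K G} (hx : x ∈ pa_S K G) (hy : y ∈ pa_S K G) :
    x * y = 0 ∨ x * y ∈ pa_S K G := by
  obtain ⟨v, l, w, m, hl, hm, ht, rfl⟩ := hx
  obtain ⟨v', l', w', m', hl', hm', ht', rfl⟩ := hy
  have e : pp K G v l * qq K G w m * (pp K G v' l' * qq K G w' m') =
      pp K G v l * ((qq K G w m * pp K G v' l') * qq K G w' m') := by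
    simp only [mul_assoc]
  rw [e]
  by_cases hwv : w = v'
  · subst hwv
    by_cases h1 : m <+: l'
    · right
      obtain ⟨t, rfl⟩ := h1
      have ht1 := (isPath_append.1 hl').2
      refine ⟨v, l ++ t, w', m', isPath_append.2 ⟨hl, by rw [ht]; exact ht1⟩, hm', ?_, ?_⟩
      · rw [tgt_append, ht, ← tgt_append]
        exact ht'
      · rw [pp_append hl', ← mul_assoc (qq K G w m), qq_mul_pp hm, vx_pp, ← mul_assoc,
          pp_append (isPath_append.2 ⟨hl, by rw [ht]; exact ht1⟩), ht]
    · by_cases h2 : l' <+: m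
      · right
        obtain ⟨t, rfl⟩ := h2
        have ht1 := (isPath_append.1 hm).2
        refine ⟨v, l, w', m' ++ t, hl, isPath_append.2 ⟨hm', by rw [← ht']; exact ht1⟩, ?_, ?_⟩
        · rw [tgt_append, ← ht', ← tgt_append]
          exact ht
        · rw [qq_append hm, mul_assoc (qq K G (G.tgt w l') t), qq_mul_pp hl', qq_vx,
            qq_append (isPath_append.2 ⟨hm', by rw [← ht']; exact ht1⟩), ht']
      · left
        rw [qq_mul_pp_ne hm hl' h1 h2, zero_mul, mul_zero]
  · left
    rw [qq_mul_pp_start hwv, zero_mul, mul_zero]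

theorem pa_span {x : U K G} (hx : x ∈ L K G) : x ∈ Submodule.span K (pa_S K G) := by
  refine L_ind (p := fun x => x ∈ Submodule.span K (pa_S K G)) ?_ ?_ ?_ ?_ ?_ ?_ ?_ hx
  · intro v
    refine Submodule.subset_span ⟨v, [], v, [], trivial, trivial, rfl, ?_⟩
    rw [pp_nil, qq_nil, vx_vx]
  · intro e
    refine Submodule.subset_span ⟨G.s e, [e], G.r e, [], ⟨rfl, trivial⟩, trivial, rfl, ?_⟩
    have h : G.IsPath (G.s e) [e] := ⟨rfl, trivial⟩
    rw [pp_cons h, pp_nil, qq_nil, mul_assoc, vx_vx, ed_vx]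
  · intro e
    refine Submodule.subset_span ⟨G.r e, [], G.s e, [e], trivial, ⟨rfl, trivial⟩, rfl, ?_⟩
    have h : G.IsPath (G.s e) [e] := ⟨rfl, trivial⟩
    rw [qq_cons h, pp_nil, qq_nil, ← mul_assoc, vx_vx, vx_gh]
  · exact Submodule.zero_mem _
  · intro x _ y _ h1 h2
    exact Submodule.add_mem _ h1 h2
  · intro x _ y _ h1 h2
    have h3 : x * y ∈ Submodule.span K (pa_S K G) * Submodule.span K (pa_S K G) :=
      Submodule.mul_mem_mul h1 h2
    rw [Submodule.span_mul_span] at h3
    refine Submodule.span_le.2 ?_ h3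
    rintro _ ⟨x, hx, y, hy, rfl⟩
    rcases pa_mul hx hy with h | h
    · change x * y ∈ _
      rw [h]
      exact Submodule.zero_mem _
    · exact Submodule.subset_span h
  · intro c x _ h
    exact Submodule.smul_mem _ c h

theorem L_ind2 {p : U K G → Prop} (h0 : p 0)
    (ha : ∀ x ∈ L K G, ∀ y ∈ L K G, p x → p y → p (x + y))
    (hb : ∀ (c : K) (v : V) (l : List E) (w : V) (m : List E), G.IsPath v l → G.IsPath w m →
      G.tgt v l = G.tgt w m → p (c • (pp K G v l * qq K G w m))) {x : U K G}
    (hx : x ∈ L K G) : p x := by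
  have key : x ∈ L K G ∧ ∀ c : K, p (c • x) := by
    have h1 := pa_span hx
    clear hx
    induction h1 using Submodule.span_induction with
    | mem x hx =>
      obtain ⟨v, l, w, m, hl, hm, ht, rfl⟩ := hx
      exact ⟨(L K G).mul_mem (pp_mem hl) (qq_mem hm), fun c => hb c v l w m hl hm ht⟩
    | zero =>
      refine ⟨(L K G).zero_mem, fun c => ?_⟩
      rw [smul_zero]
      exact h0
    | add x y _ _ h1 h2 =>
      refine ⟨(L K G).add_mem h1.1 h2.1, fun c => ?_⟩
      rw [smul_add]
      exact ha _ ((L K G).smul_mem c h1.1) _ ((L K G).smul_mem c h2.1) (h1.2 c) (h2.2 c)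
    | smul c x _ h1 =>
      refine ⟨(L K G).smul_mem c h1.1, fun d => ?_⟩
      rw [smul_smul]
      exact h1.2 (d * c)
  have := key.2 1
  rwa [one_smul] at this

/-- the adjoints of different paths are linearly independent -/
theorem qq_li (S : Finset (V × List E)) (c : V × List E → K) (hS : ∀ p ∈ S, G.IsPath p.1 p.2)
    (h : ∑ p ∈ S, c p • qq K G p.1 p.2 = 0) : ∀ p ∈ S, c p = 0 := by
  intro q hq
  have h1 : ∑ p ∈ S, c p • cp (-(q.2.length : ℤ)) (qq K G p.1 p.2) = 0 := by
    have h2 := congrArg (AddMonoidHom.mk' (cp (K := K) (G := G) (-(q.2.length : ℤ)))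
      (cp_add _)) h
    rw [map_sum, map_zero] at h2
    rw [← h2]
    refine Finset.sum_congr rfl fun p _ => ?_
    exact (cp_smul _ _ _).symm
  have h3 := congrArg (· * pp K G q.1 q.2) h1
  simp only [zero_mul, Finset.sum_mul] at h3
  rw [Finset.sum_eq_single q] at h3
  · rw [cp_of_hm (hm_qq (hS q hq)), smul_mul_assoc, qq_mul_pp (hS q hq)] at h3
    rcases smul_eq_zero.1 h3 with h4 | h4
    · exact h4
    · exact absurd h4 (vx_ne_zero _)
  · intro p hp hpq
    by_cases hlen : p.2.length = q.2.length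
    · rw [← hlen, cp_of_hm (hm_qq (hS p hp)), smul_mul_assoc]
      by_cases hv : p.1 = q.1
      · have hne : p.2 ≠ q.2 := fun h => hpq (Prod.ext hv h)
        have hp1 := hS p hp
        have hq1 := hS q hq
        rw [hv] at hp1 ⊢
        rw [qq_mul_pp_ne hp1 hq1 (fun h => hne (h.eq_of_length hlen))
          (fun h => hne (h.eq_of_length hlen.symm).symm), smul_zero]
      · rw [qq_mul_pp_start hv, smul_zero]
    · rw [cp_of_hm_ne (hm_qq (hS p hp)) (by
        intro h
        apply hlen
        have := neg_injective h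
        exact_mod_cast this.symm), smul_zero, zero_mul]
  · intro h
    exact absurd hq h

theorem pa_sum_mul {F : Finset V} {w : V} (h : w ∈ F) :
    (∑ v ∈ F, vx K G v) * vx K G w = vx K G w := by
  rw [Finset.sum_mul, Finset.sum_eq_single w]
  · exact vx_vx w
  · intro v _ hv
    exact vx_vx_of_ne hv
  · intro h'
    exact absurd h h'

theorem pa_mul_sum {F : Finset V} {w : V} (h : w ∈ F) :
    vx K G w * (∑ v ∈ F, vx K G v) = vx K G w := by
  rw [Finset.mul_sum, Finset.sum_eq_single w]
  · exact vx_vx w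
  · intro v _ hv
    exact vx_vx_of_ne hv.symm
  · intro h'
    exact absurd h h'

theorem pa_unit {x : U K G} (hx : x ∈ L K G) : ∃ F : Finset V, ∀ F' : Finset V, F ⊆ F' →
    (∑ v ∈ F', vx K G v) * x = x ∧ x * (∑ v ∈ F', vx K G v) = x := by
  classical
  refine L_ind (p := fun x => ∃ F : Finset V, ∀ F' : Finset V, F ⊆ F' →
    (∑ v ∈ F', vx K G v) * x = x ∧ x * (∑ v ∈ F', vx K G v) = x) ?_ ?_ ?_ ?_ ?_ ?_ ?_ hx
  · intro v
    refine ⟨{v}, fun F' hF => ?_⟩
    have h := hF (Finset.mem_singleton_self v)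
    exact ⟨pa_sum_mul h, pa_mul_sum h⟩
  · intro e
    refine ⟨{G.s e, G.r e}, fun F' hF => ?_⟩
    have h1 : G.s e ∈ F' := hF (by simp)
    have h2 : G.r e ∈ F' := hF (by simp)
    constructor
    · conv_lhs => rw [← vx_ed e]
      rw [← mul_assoc, pa_sum_mul h1, vx_ed]
    · conv_lhs => rw [← ed_vx e]
      rw [mul_assoc, pa_mul_sum h2, ed_vx]
  · intro e
    refine ⟨{G.s e, G.r e}, fun F' hF => ?_⟩
    have h1 : G.s e ∈ F' := hF (by simp)
    have h2 : G.r e ∈ F' := hF (by simp)
    constructor
    · conv_lhs => rw [← vx_gh e]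
      rw [← mul_assoc, pa_sum_mul h2, vx_gh]
    · conv_lhs => rw [← gh_vx e]
      rw [mul_assoc, pa_mul_sum h1, gh_vx]
  · exact ⟨∅, fun F' _ => ⟨mul_zero _, zero_mul _⟩⟩
  · rintro x _ y _ ⟨F1, h1⟩ ⟨F2, h2⟩
    refine ⟨F1 ∪ F2, fun F' hF => ?_⟩
    have k1 := h1 F' (Finset.union_subset_left hF)
    have k2 := h2 F' (Finset.union_subset_right hF)
    rw [mul_add, add_mul, k1.1, k1.2, k2.1, k2.2]
    exact ⟨rfl, rfl⟩
  · rintro x _ y _ ⟨F1, h1⟩ ⟨F2, h2⟩
    refine ⟨F1 ∪ F2, fun F' hF => ?_⟩
    have k1 := h1 F' (Finset.union_subset_left hF)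
    have k2 := h2 F' (Finset.union_subset_right hF)
    rw [← mul_assoc, k1.1, mul_assoc, k2.2]
    exact ⟨rfl, rfl⟩
  · rintro c x _ ⟨F1, h1⟩
    refine ⟨F1, fun F' hF => ?_⟩
    have k1 := h1 F' hF
    rw [mul_smul_comm, smul_mul_assoc, k1.1, k1.2]
    exact ⟨rfl, rfl⟩

/-- every element of `L` has a local unit which is a finite sum of vertices -/
theorem exists_unit {x : U K G} (hx : x ∈ L K G) : ∃ F : Finset V,
    (∑ v ∈ F, vx K G v) * x = x ∧ x * (∑ v ∈ F, vx K G v) = x := by
  obtain ⟨F, hF⟩ := pa_unit hx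
  exact ⟨F, hF F (Finset.Subset.refl F)⟩

/-- two elements of `L` with the same products with the vertices are equal -/
theorem ext_vx {x y : U K G} (hx : x ∈ L K G) (hy : y ∈ L K G)
    (h : ∀ v w, vx K G v * x * vx K G w = vx K G v * y * vx K G w) : x = y := by
  classical
  obtain ⟨F1, h1⟩ := pa_unit hx
  obtain ⟨F2, h2⟩ := pa_unit hy
  have k1 := h1 (F1 ∪ F2) Finset.subset_union_left
  have k2 := h2 (F1 ∪ F2) Finset.subset_union_right
  have e : ∀ z : U K G, (∑ v ∈ F1 ∪ F2, vx K G v) * z * (∑ w ∈ F1 ∪ F2, vx K G w) =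
      ∑ v ∈ F1 ∪ F2, ∑ w ∈ F1 ∪ F2, vx K G v * z * vx K G w := by
    intro z
    rw [Finset.sum_mul, Finset.sum_mul]
    refine Finset.sum_congr rfl fun v _ => ?_
    rw [Finset.mul_sum]
  calc x = (∑ v ∈ F1 ∪ F2, vx K G v) * x * (∑ w ∈ F1 ∪ F2, vx K G w) := by
        rw [k1.1, k1.2]
    _ = (∑ v ∈ F1 ∪ F2, vx K G v) * y * (∑ w ∈ F1 ∪ F2, vx K G w) := by
        rw [e, e]
        exact Finset.sum_congr rfl fun v _ => Finset.sum_congr rfl fun w _ => h v w
    _ = y := by rw [k2.1, k2.2]

end Pool.Agent.Helper32.RA
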