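import Pool.Agent.Helper32.RA.Cn
import Pool.Agent.Helper32.RA.Np

/-! Leavitt path algebras: the `K`-linear homomorphism of a ring isomorphism.

PIECE RA-9. `isRep_phi`: apply `φ` to the relations (in `L`). `Phi_pp`, `Phi_qq`: by induction on
the path. `intr0`: put `y = φ x - Phi x`, `y = φ z` with `z ∈ L` (`φ` is surjective); `z` is in the
corner of `w` since `y * φ w = y = φ w * y`; for `l, m ∈ NP G N w`,
`φ (l* z m) = φ (l*) y φ (m) = φ (l* x m) - Phi (l* x m) = 0` by the hypothesis: `l* x m` is `0` for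
`l ≠ m`, and `0` or the vertex `tgt w l` for `l = m`. So `z = 0` by `sep`. -/

set_option autoImplicit false

universe k a b a' b'

namespace Pool.Agent.Helper32.RA

open Pool.Agent.Helper32.LV

variable {V : Type a} {E : Type b} {K : Type k} [Field K] {G : Gr V E}
  {V' : Type a'} {E' : Type b'} {G' : Gr V' E'}

theorem phi_mul (φ : L K G ≃+* L K G') {x y z : L K G} (h : (x : U K G) * y = z) :
    (φ x : U K G') * (φ y : U K G') = φ z := by
  have h1 : x * y = z := Subtype.ext h
  rw [← h1, map_mul]; rfl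

theorem phi_zero (φ : L K G ≃+* L K G') {x y : L K G} (h : (x : U K G) * y = 0) :
    (φ x : U K G') * (φ y : U K G') = 0 := by
  have h1 : x * y = 0 := Subtype.ext h
  have h2 : φ x * φ y = 0 := by rw [← map_mul, h1, map_zero]
  exact congrArg Subtype.val h2

theorem isRep_phi (φ : L K G ≃+* L K G') : IsRep K G (B := U K G')
    (fun v => (φ (vL K G v) : U K G')) (fun e => (φ (eL K G e) : U K G'))
    (fun e => (φ (gL K G e) : U K G')) where
  vv v := phi_mul φ (vx_vx v)
  vw v w h := phi_zero φ (vx_vx_of_ne h)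
  se e := phi_mul φ (vx_ed e)
  er e := phi_mul φ (ed_vx e)
  rg e := phi_mul φ (vx_gh e)
  gs e := phi_mul φ (gh_vx e)
  ge e := phi_mul φ (gh_ed e)
  gf e f h := phi_zero φ (gh_ed_of_ne h)
  ck v h h0 := by
    have h1 : vL K G v = ∑ e ∈ h.toFinset, eL K G e * gL K G e := by
      apply Subtype.ext
      rw [AddSubmonoidClass.coe_finsetSum]
      exact vx_eq_sum v h h0
    rw [h1, map_sum, AddSubmonoidClass.coe_finsetSum]
    refine Finset.sum_congr rfl fun e _ => ?_
    rw [map_mul]; rfl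

/-- the homomorphism of algebras which agrees with `φ` on the generators -/
noncomputable def Phi (φ : L K G ≃+* L K G') : U K G →ₐ[K] U K G' := lift (isRep_phi φ)

theorem Phi_vx (φ : L K G ≃+* L K G') (v : V) : Phi φ (vx K G v) = φ (vL K G v) :=
  lift_vx (isRep_phi φ) v
theorem Phi_ed (φ : L K G ≃+* L K G') (e : E) : Phi φ (ed K G e) = φ (eL K G e) :=
  lift_ed (isRep_phi φ) e
theorem Phi_gh (φ : L K G ≃+* L K G') (e : E) : Phi φ (gh K G e) = φ (gL K G e) :=
  lift_gh (isRep_phi φ) e

theorem Phi_mem (φ : L K G ≃+* L K G') {x : U K G} (hx : x ∈ L K G) : Phi φ x ∈ L K G' := by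
  refine L_ind (p := fun x => Phi φ x ∈ L K G') ?_ ?_ ?_ ?_ ?_ ?_ ?_ hx
  · intro v; rw [Phi_vx]; exact (φ (vL K G v)).2
  · intro e; rw [Phi_ed]; exact (φ (eL K G e)).2
  · intro e; rw [Phi_gh]; exact (φ (gL K G e)).2
  · rw [map_zero]; exact (L K G').zero_mem
  · intro x _ y _ h1 h2; rw [map_add]; exact (L K G').add_mem h1 h2
  · intro x _ y _ h1 h2; rw [map_mul]; exact (L K G').mul_mem h1 h2
  · intro c x _ h; rw [map_smul]; exact (L K G').smul_mem _ h

theorem Phi_pp (φ : L K G ≃+* L K G') {v : V} {l : List E} (h : G.IsPath v l) (z : L K G)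
    (hz : (z : U K G) = pp K G v l) : Phi φ (pp K G v l) = φ z := by
  induction l generalizing v z with
  | nil =>
    have h1 : z = vL K G v := Subtype.ext (hz.trans (pp_nil v))
    rw [pp_nil, Phi_vx, h1]
  | cons e l ih =>
    have h1 : G.IsPath (G.r e) l := h.2
    have h2 : z = eL K G e * ⟨pp K G (G.r e) l, pp_mem h1⟩ :=
      Subtype.ext (hz.trans (pp_cons h))
    rw [pp_cons h, map_mul, Phi_ed, ih h1 ⟨pp K G (G.r e) l, pp_mem h1⟩ rfl, h2, map_mul]
    rfl

theorem Phi_qq (φ : L K G ≃+* L K G') {v : V} {l : List E} (h : G.IsPath v l) (z : L K G)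
    (hz : (z : U K G) = qq K G v l) : Phi φ (qq K G v l) = φ z := by
  induction l generalizing v z with
  | nil =>
    have h1 : z = vL K G v := Subtype.ext (hz.trans (qq_nil v))
    rw [qq_nil, Phi_vx, h1]
  | cons e l ih =>
    have h1 : G.IsPath (G.r e) l := h.2
    have h2 : z = ⟨qq K G (G.r e) l, qq_mem h1⟩ * gL K G e :=
      Subtype.ext (hz.trans (qq_cons h))
    rw [qq_cons h, map_mul, Phi_gh, ih h1 ⟨qq K G (G.r e) l, qq_mem h1⟩ rfl, h2, map_mul]
    rfl

/-- `Phi` agrees with `φ` on elements which are diagonal with coefficients `0`, `1` -/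
theorem intr0 (φ : L K G ≃+* L K G') {w : V} {x : L K G} (hx : Cor w (x : U K G)) (N : ℕ)
    (h1 : ∀ l ∈ NP G N w, qq K G w l * (x : U K G) * pp K G w l = 0 ∨
      qq K G w l * (x : U K G) * pp K G w l = vx K G (G.tgt w l))
    (h2 : ∀ l ∈ NP G N w, ∀ m ∈ NP G N w, l ≠ m →
      qq K G w l * (x : U K G) * pp K G w m = 0) : Phi φ (x : U K G) = φ x := by
  obtain ⟨p, hp⟩ : ∃ p : L K G', p = ⟨Phi φ (x : U K G), Phi_mem φ x.2⟩ := ⟨_, rfl⟩
  have hpv : (p : U K G') = Phi φ (x : U K G) := by rw [hp]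
  obtain ⟨z, hz⟩ := φ.surjective (φ x - p)
  have hx1 : vL K G w * x = x := Subtype.ext hx.2.1
  have hx2 : x * vL K G w = x := Subtype.ext hx.2.2
  have hp1 : φ (vL K G w) * p = p := by
    apply Subtype.ext
    change (φ (vL K G w) : U K G') * (p : U K G') = p
    rw [hpv, ← Phi_vx, ← map_mul, hx.2.1]
  have hp2 : p * φ (vL K G w) = p := by
    apply Subtype.ext
    change (p : U K G') * (φ (vL K G w) : U K G') = p
    rw [hpv, ← Phi_vx, ← map_mul, hx.2.2]
  have hz1 : vL K G w * z = z := by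
    apply φ.injective
    rw [map_mul, hz, mul_sub, ← map_mul, hx1, hp1]
  have hz2 : z * vL K G w = z := by
    apply φ.injective
    rw [map_mul, hz, sub_mul, ← map_mul, hx2, hp2]
  have hz0 : (z : U K G) = 0 := by
    refine sep N z.2 (v := w) (w := w) (congrArg Subtype.val hz1) (congrArg Subtype.val hz2) ?_
    intro l hl m hm
    obtain ⟨Q, hQ⟩ : ∃ Q : L K G, (Q : U K G) = qq K G w l := ⟨⟨_, qq_mem hl.1⟩, rfl⟩
    obtain ⟨P, hP⟩ : ∃ P : L K G, (P : U K G) = pp K G w m := ⟨⟨_, pp_mem hm.1⟩, rfl⟩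
    have hQx : (φ (Q * x * P) : U K G') = Phi φ (qq K G w l * (x : U K G) * pp K G w m) := by
      by_cases hlm : l = m
      · subst hlm
        rcases h1 l hl with h3 | h3
        · have h4 : Q * x * P = 0 := by
            apply Subtype.ext
            change (Q : U K G) * (x : U K G) * (P : U K G) = 0
            rw [hQ, hP, h3]
          rw [h3, map_zero, h4, map_zero]; rfl
        · have h4 : Q * x * P = vL K G (G.tgt w l) := by
            apply Subtype.ext
            change (Q : U K G) * (x : U K G) * (P : U K G) = vx K G (G.tgt w l)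
            rw [hQ, hP, h3]
          rw [h3, Phi_vx, h4]
      · have h3 := h2 l hl m hm hlm
        have h4 : Q * x * P = 0 := by
          apply Subtype.ext
          change (Q : U K G) * (x : U K G) * (P : U K G) = 0
          rw [hQ, hP, h3]
        rw [h3, map_zero, h4, map_zero]; rfl
    have h5 : φ (Q * z * P) = 0 := by
      rw [map_mul, map_mul, hz, mul_sub, sub_mul, ← map_mul, ← map_mul, sub_eq_zero]
      apply Subtype.ext
      rw [hQx, map_mul, map_mul, Phi_qq φ hl.1 Q hQ, Phi_pp φ hm.1 P hP, ← hpv]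
      rfl
    have h6 : Q * z * P = 0 := φ.injective (by rw [h5, map_zero])
    rw [← hQ, ← hP]
    exact congrArg Subtype.val h6
  have hz3 : z = 0 := Subtype.ext hz0
  rw [hz3, map_zero] at hz
  have h7 : φ x = p := (sub_eq_zero.1 hz.symm)
  rw [← hpv, h7]

end Pool.Agent.Helper32.RA
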